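import Mathlib

/-!
Counting lemma: if a set valued function `G` of a word `ω` does not change when letters at places of
`G ω` are changed, then the words with no letter `z` on a large `G ω` are rare.
-/

set_option autoImplicit false

open Classical

namespace Pool.Agent.Y649.Mesh

variable {ι : Type} [Fintype ι] [DecidableEq ι] {Q : ℕ}

lemma card_update (P : Finset (ι → Fin Q)) (j : ι)
    (hP : ∀ ω ∈ P, ∀ v, Function.update ω j v ∈ P) (z v : Fin Q) :
    (P.filter (fun ω => ω j = v)).card = (P.filter (fun ω => ω j = z)).card := by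
  refine Finset.card_bij' (fun ω _ => Function.update ω j z) (fun ω _ => Function.update ω j v)
    ?_ ?_ ?_ ?_
  · intro ω hω
    have h := (Finset.mem_filter.1 hω).1
    exact Finset.mem_filter.2 ⟨hP ω h z, Function.update_self _ _ _⟩
  · intro ω hω
    have h := (Finset.mem_filter.1 hω).1
    exact Finset.mem_filter.2 ⟨hP ω h v, Function.update_self _ _ _⟩
  · intro ω hω
    have h := (Finset.mem_filter.1 hω).2
    rw [Function.update_idem, ← h, Function.update_eq_self]
  · intro ω hω
    have h := (Finset.mem_filter.1 hω).2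
    rw [Function.update_idem, ← h, Function.update_eq_self]

lemma card_eq_mul (P : Finset (ι → Fin Q)) (j : ι)
    (hP : ∀ ω ∈ P, ∀ v, Function.update ω j v ∈ P) (z : Fin Q) :
    P.card = Q * (P.filter (fun ω => ω j = z)).card := by
  have h1 : P.card = ∑ v : Fin Q, (P.filter (fun ω => ω j = v)).card :=
    Finset.card_eq_sum_card_fiberwise (fun ω _ => Finset.mem_univ (ω j))
  rw [h1, Finset.sum_congr rfl (fun v _ => card_update P j hP z v)]
  simp

lemma card_ne (P : Finset (ι → Fin Q)) (j : ι)
    (hP : ∀ ω ∈ P, ∀ v, Function.update ω j v ∈ P) (z : Fin Q) :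
    ((P.filter (fun ω => ω j ≠ z)).card : ℝ) = (1 - 1 / (Q : ℝ)) * P.card := by
  have hQ : (0 : ℝ) < Q := by
    have := z.pos
    exact_mod_cast this
  have h1 := card_eq_mul P j hP z
  have h2 : (P.filter (fun ω => ω j = z)).card + (P.filter (fun ω => ¬ ω j = z)).card = P.card :=
    Finset.card_filter_add_card_filter_not _
  have h1' : (P.card : ℝ) = Q * (P.filter (fun ω => ω j = z)).card := by exact_mod_cast h1
  have h2' : ((P.filter (fun ω => ω j = z)).card : ℝ) + (P.filter (fun ω => ¬ ω j = z)).card =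
      P.card := by exact_mod_cast h2
  have h3 : (1 - 1 / (Q : ℝ)) * P.card = P.card - (P.filter (fun ω => ω j = z)).card := by
    rw [sub_mul, one_mul, h1']
    field_simp
  rw [h3]
  have : (P.filter (fun ω => ω j ≠ z)).card = (P.filter (fun ω => ¬ ω j = z)).card := rfl
  rw [this]
  linarith

lemma card_avoid (P : Finset (ι → Fin Q)) (z : Fin Q) (S : Finset ι)
    (hP : ∀ ω ∈ P, ∀ ω', (∀ j, j ∉ S → ω' j = ω j) → ω' ∈ P) :
    ((P.filter (fun ω => ∀ j ∈ S, ω j ≠ z)).card : ℝ) = (1 - 1 / (Q : ℝ)) ^ S.card * P.card := by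
  induction S using Finset.induction_on with
  | empty => simp
  | insert j S hj ih =>
    have h1 : P.filter (fun ω => ∀ i ∈ insert j S, ω i ≠ z) =
        (P.filter (fun ω => ∀ i ∈ S, ω i ≠ z)).filter (fun ω => ω j ≠ z) := by
      ext ω
      simp only [Finset.mem_filter, Finset.mem_insert, forall_eq_or_imp]
      tauto
    rw [h1, card_ne _ j _ z, ih, Finset.card_insert_of_notMem hj]
    · ring
    · intro ω hω ω' h
      apply hP ω hω ω'
      intro i hi
      exact h i (fun hiS => hi (Finset.mem_insert_of_mem hiS))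
    · intro ω hω v
      obtain ⟨h2, h3⟩ := Finset.mem_filter.1 hω
      refine Finset.mem_filter.2 ⟨?_, ?_⟩
      · apply hP ω h2
        intro i hi
        have : i ≠ j := fun h => hi (h ▸ Finset.mem_insert_self _ _)
        exact Function.update_of_ne this _ _
      · intro i hi
        have : i ≠ j := fun h => hj (h ▸ hi)
        rw [Function.update_of_ne this]
        exact h3 i hi

/-- The counting lemma. -/
lemma count_bad (z : Fin Q) (K : ℕ) (G : (ι → Fin Q) → Finset ι)
    (hG : ∀ ω ω', (∀ j, j ∉ G ω → ω' j = ω j) → G ω' = G ω) :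
    ((Finset.univ.filter (fun ω : ι → Fin Q => K ≤ (G ω).card ∧ ∀ j ∈ G ω, ω j ≠ z)).card : ℝ) ≤
      (1 - 1 / (Q : ℝ)) ^ K * (Fintype.card (ι → Fin Q) : ℝ) := by
  have hQ : (1 : ℝ) ≤ Q := by
    have := z.pos
    exact_mod_cast this
  have h0 : 0 ≤ 1 - 1 / (Q : ℝ) := by
    rw [sub_nonneg, div_le_one (by linarith)]
    exact hQ
  have h1 : 1 - 1 / (Q : ℝ) ≤ 1 := by
    have : 0 ≤ 1 / (Q : ℝ) := by positivity
    linarith
  set E := Finset.univ.filter (fun ω : ι → Fin Q => K ≤ (G ω).card ∧ ∀ j ∈ G ω, ω j ≠ z) with hE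
  have h2 : E.card = ∑ S : Finset ι, (E.filter (fun ω => G ω = S)).card :=
    Finset.card_eq_sum_card_fiberwise (fun ω _ => Finset.mem_univ (G ω))
  have h3 : Fintype.card (ι → Fin Q) =
      ∑ S : Finset ι, ((Finset.univ : Finset (ι → Fin Q)).filter (fun ω => G ω = S)).card :=
    Finset.card_eq_sum_card_fiberwise (fun ω _ => Finset.mem_univ (G ω))
  rw [h2, h3]
  push_cast
  rw [Finset.mul_sum]
  apply Finset.sum_le_sum
  intro S _
  have h4 := card_avoid ((Finset.univ : Finset (ι → Fin Q)).filter (fun ω => G ω = S)) z S (by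
    intro ω hω ω' h
    have h5 := (Finset.mem_filter.1 hω).2
    refine Finset.mem_filter.2 ⟨Finset.mem_univ _, ?_⟩
    rw [hG ω ω' (by rw [h5]; exact h), h5])
  by_cases hK : K ≤ S.card
  · have h5 : E.filter (fun ω => G ω = S) =
        ((Finset.univ : Finset (ι → Fin Q)).filter (fun ω => G ω = S)).filter
          (fun ω => ∀ j ∈ S, ω j ≠ z) := by
      ext ω
      simp only [hE, Finset.mem_filter, Finset.mem_univ, true_and]
      constructor
      · rintro ⟨⟨_, h6⟩, h7⟩
        exact ⟨h7, h7 ▸ h6⟩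
      · rintro ⟨h6, h7⟩
        subst h6
        exact ⟨⟨hK, h7⟩, rfl⟩
    rw [h5, h4]
    apply mul_le_mul_of_nonneg_right _ (by positivity)
    exact pow_le_pow_of_le_one h0 h1 hK
  · have h5 : E.filter (fun ω => G ω = S) = ∅ := by
      rw [Finset.filter_eq_empty_iff]
      intro ω hω h6
      have h7 := (Finset.mem_filter.1 hω).2.1
      rw [h6] at h7
      exact hK h7
    rw [h5]
    simp only [Finset.card_empty, Nat.cast_zero]
    positivity

/-- The number of words with letter `z` at place `j`. -/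
lemma card_letter (z : Fin Q) (j : ι) :
    (((Finset.univ : Finset (ι → Fin Q)).filter (fun ω => ω j = z)).card : ℝ) =
      (Fintype.card (ι → Fin Q) : ℝ) / Q := by
  have h := card_eq_mul (Finset.univ : Finset (ι → Fin Q)) j (fun _ _ _ => Finset.mem_univ _) z
  have hQ : (0 : ℝ) < Q := by
    have := z.pos
    exact_mod_cast this
  rw [eq_div_iff hQ.ne']
  have h' : (Fintype.card (ι → Fin Q) : ℝ) =
      Q * ((Finset.univ : Finset (ι → Fin Q)).filter (fun ω => ω j = z)).card := by
    exact_mod_cast h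
  rw [h']
  ring

end Pool.Agent.Y649.Mesh
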