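import Pool.Agent.Y649.Mesh.Inst
import Pool.Agent.Y649.Mesh.Count

/-!
Fresh jobs, and the probability that a rectangle meets many fresh jobs but no long fresh job.
-/

set_option autoImplicit false

open Classical

namespace Pool.Agent.Y649.Mesh

open Pool.Agent.Helper472.Mesh

variable {n : ℕ} (p : Par n)

/-- jobs of block `β` which are fresh when job `m` is started -/
noncomputable def Fr (S : Sched) (β m : ℕ) : Finset ℕ :=
  (Finset.Ico (p.off β) (p.off (β + 1))).filter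
    (fun j => S.start j ≤ S.start m ∧ S.start m < sf p S j ∧ sf p S j < S.start j + 1)

/-- those of them which meet the rectangle `Z` -/
noncomputable def FrQ (S : Sched) (β m : ℕ) (Z : Rect) : Finset ℕ :=
  (Fr p S β m).filter (fun j => ¬ Disjoint Z.cells (S.rect j).cells)

/-- `S` and `S'` agree on everything that is started before time `t` -/
def Agree (N : ℕ) (S S' : Sched) (t : ℝ) : Prop :=
  ∀ j < N, (S.start j < t ∨ S'.start j < t) →
    S'.start j = S.start j ∧ S'.rect j = S.rect j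

lemma agree_of_same {A : Inst n → Sched} (hA : Online A) {I I' : Inst n} {t : ℝ}
    (h : SameInfo I I' (A I) t) {N : ℕ} (h1 : N ≤ I.N) (h2 : N ≤ I'.N) :
    Agree N (A I) (A I') t := by
  intro j hj hst
  have h3 := hA.nonanticipating I I' t h j
  rcases hst with h4 | h4
  · exact h3.2 (lt_of_lt_of_le hj h1) h4
  · have h5 := h3.1.2 ⟨lt_of_lt_of_le hj h2, h4⟩
    exact h3.2 h5.1 h5.2

section congr

variable {S S' : Sched} {t : ℝ} {N β m : ℕ}

lemma sf_congr {j : ℕ} (h : S'.start j = S.start j ∧ S'.rect j = S.rect j) :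
    sf p S' j = sf p S j := by
  unfold sf
  rw [h.1, h.2]

lemma Fr_congr (h : Agree N S S' t) (hN : p.off (β + 1) ≤ N)
    (hm : m ∈ Finset.Ico (p.off β) (p.off (β + 1))) (hmt : S.start m < t) :
    Fr p S' β m = Fr p S β m := by
  have hmN : m < N := lt_of_lt_of_le (Finset.mem_Ico.1 hm).2 hN
  have hm' := h m hmN (Or.inl hmt)
  ext j
  unfold Fr
  rw [Finset.mem_filter, Finset.mem_filter]
  constructor
  · rintro ⟨h1, h2, h3, h4⟩
    have hjN : j < N := lt_of_lt_of_le (Finset.mem_Ico.1 h1).2 hN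
    have hj := h j hjN (Or.inr (by rw [hm'.1] at h2; linarith))
    rw [sf_congr p hj] at h3 h4
    rw [hj.1] at h2 h4
    rw [hm'.1] at h2 h3
    exact ⟨h1, h2, h3, h4⟩
  · rintro ⟨h1, h2, h3, h4⟩
    have hjN : j < N := lt_of_lt_of_le (Finset.mem_Ico.1 h1).2 hN
    have hj := h j hjN (Or.inl (by linarith))
    rw [sf_congr p hj, hj.1, hm'.1]
    exact ⟨h1, h2, h3, h4⟩

lemma Fr_rect (h : Agree N S S' t) (hN : p.off (β + 1) ≤ N)
    (hmt : S.start m < t) {j : ℕ} (hj : j ∈ Fr p S β m) :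
    S'.start j = S.start j ∧ S'.rect j = S.rect j := by
  obtain ⟨h1, h2, h3, h4⟩ := Finset.mem_filter.1 hj
  have hjN : j < N := lt_of_lt_of_le (Finset.mem_Ico.1 h1).2 hN
  exact h j hjN (Or.inl (by linarith))

lemma FrQ_congr (h : Agree N S S' t) (hN : p.off (β + 1) ≤ N)
    (hm : m ∈ Finset.Ico (p.off β) (p.off (β + 1))) (hmt : S.start m < t) (Z : Rect) :
    FrQ p S' β m Z = FrQ p S β m Z := by
  unfold FrQ
  rw [Fr_congr p h hN hm hmt]
  apply Finset.filter_congr
  intro j hj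
  rw [(Fr_rect p h hN hmt hj).2]

end congr

/-- the types of the jobs given by a word -/
def ty {N Q : ℕ} (ω : Fin N → Fin Q) (j : ℕ) : Prop := ∃ h : j < N, (ω ⟨j, h⟩ : ℕ) = 0

/-- a rectangle which meets many fresh jobs meets a long fresh job -/
def Good (A : Inst n → Sched) (τ : ℕ → Prop) (β : ℕ) : Prop :=
  ∀ m ∈ Finset.Ico (p.off β) (p.off (β + 1)), ∀ Z : Rect, Z.x + Z.w ≤ n → Z.y + Z.h ≤ n →
    1 ≤ Z.w → 1 ≤ Z.h → p.K ≤ (FrQ p (A (inst p τ (β + 1))) β m Z).card →
      ∃ j ∈ FrQ p (A (inst p τ (β + 1))) β m Z, τ j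

section count

variable {A : Inst n → Sched}

lemma consistent (hA : Online A) {N β m : ℕ} (hN : p.off (β + 1) ≤ N)
    (hm : m ∈ Finset.Ico (p.off β) (p.off (β + 1))) (Z : Rect) (ω ω' : Fin N → Fin p.Q)
    (h : ∀ i : Fin N, (i : ℕ) ∉ FrQ p (A (inst p (ty ω) (β + 1))) β m Z → ω' i = ω i) :
    FrQ p (A (inst p (ty ω') (β + 1))) β m Z = FrQ p (A (inst p (ty ω) (β + 1))) β m Z := by
  set S := A (inst p (ty ω) (β + 1)) with hS
  set G := FrQ p S β m Z with hG
  rcases G.eq_empty_or_nonempty with h0 | h0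
  · have : ω' = ω := by
      funext i
      apply h i
      rw [h0]
      exact Finset.notMem_empty _
    rw [this]
  · set t := G.inf' h0 (sf p S) with ht
    have hmt : S.start m < t := by
      rw [ht, Finset.lt_inf'_iff]
      intro j hj
      exact (Finset.mem_filter.1 (Finset.mem_filter.1 hj).1).2.2.1
    have hsame : SameInfo (inst p (ty ω) (β + 1)) (inst p (ty ω') (β + 1)) S t := by
      apply flip_same p G
      · intro j hj
        refine ⟨(Finset.mem_Ico.1 (Finset.mem_filter.1 (Finset.mem_filter.1 hj).1).1).1, ?_⟩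
        exact Finset.inf'_le _ hj
      · intro j hj
        unfold ty
        constructor
        · rintro ⟨h1, h2⟩
          refine ⟨h1, ?_⟩
          rw [← h ⟨j, h1⟩ hj]
          exact h2
        · rintro ⟨h1, h2⟩
          refine ⟨h1, ?_⟩
          rw [h ⟨j, h1⟩ hj]
          exact h2
    have hag := agree_of_same hA hsame (N := p.off (β + 1)) le_rfl le_rfl
    exact FrQ_congr p hag le_rfl hm hmt Z

lemma bad_one (hA : Online A) {N β m : ℕ} (hN : p.off (β + 1) ≤ N)
    (hm : m ∈ Finset.Ico (p.off β) (p.off (β + 1))) (Z : Rect) :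
    (((Finset.univ : Finset (Fin N → Fin p.Q)).filter (fun ω =>
      p.K ≤ (FrQ p (A (inst p (ty ω) (β + 1))) β m Z).card ∧
      ∀ j ∈ FrQ p (A (inst p (ty ω) (β + 1))) β m Z, ¬ ty ω j)).card : ℝ) ≤
      (1 - 1 / (p.Q : ℝ)) ^ p.K * (Fintype.card (Fin N → Fin p.Q) : ℝ) := by
  let z : Fin p.Q := ⟨0, p.Q_pos⟩
  let G : (Fin N → Fin p.Q) → Finset (Fin N) := fun ω =>
    Finset.univ.filter (fun i => (i : ℕ) ∈ FrQ p (A (inst p (ty ω) (β + 1))) β m Z)
  have hcard : ∀ ω, (G ω).card = (FrQ p (A (inst p (ty ω) (β + 1))) β m Z).card := by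
    intro ω
    have h1 : (G ω).map Fin.valEmbedding = FrQ p (A (inst p (ty ω) (β + 1))) β m Z := by
      ext j
      simp only [G, Finset.mem_map, Finset.mem_filter, Finset.mem_univ, true_and,
        Fin.valEmbedding_apply]
      constructor
      · rintro ⟨i, h1, rfl⟩
        exact h1
      · intro h1
        have h2 : j < N := lt_of_lt_of_le
          (Finset.mem_Ico.1 (Finset.mem_filter.1 (Finset.mem_filter.1 h1).1).1).2 hN
        exact ⟨⟨j, h2⟩, h1, rfl⟩
    rw [← h1, Finset.card_map]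
  have h1 := count_bad z p.K G (by
    intro ω ω' h
    have h2 := consistent p hA hN hm Z ω ω' (by
      intro i hi
      apply h i
      simpa [G] using hi)
    simp only [G]
    rw [h2])
  refine le_trans ?_ h1
  have h2 : (Finset.univ : Finset (Fin N → Fin p.Q)).filter (fun ω =>
      p.K ≤ (FrQ p (A (inst p (ty ω) (β + 1))) β m Z).card ∧
      ∀ j ∈ FrQ p (A (inst p (ty ω) (β + 1))) β m Z, ¬ ty ω j) ⊆
      Finset.univ.filter (fun ω => p.K ≤ (G ω).card ∧ ∀ j ∈ G ω, ω j ≠ z) := by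
    intro ω hω
    simp only [Finset.mem_filter, Finset.mem_univ, true_and] at hω ⊢
    obtain ⟨h3, h4⟩ := hω
    refine ⟨?_, ?_⟩
    · rw [hcard]; exact h3
    · intro i hi hz
      have h5 : (i : ℕ) ∈ FrQ p (A (inst p (ty ω) (β + 1))) β m Z := (Finset.mem_filter.1 hi).2
      apply h4 _ h5
      refine ⟨i.2, ?_⟩
      rw [Fin.eta, hz]
  exact_mod_cast Finset.card_le_card h2

/-- The probability that a block is not good. -/
theorem bad_card (hA : Online A) {N β : ℕ} (hN : p.off (β + 1) ≤ N) :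
    (((Finset.univ : Finset (Fin N → Fin p.Q)).filter (fun ω => ¬ Good p A (ty ω) β)).card : ℝ) ≤
      (p.Nb (p.sh β) : ℝ) * (n : ℝ) ^ 4 *
        ((1 - 1 / (p.Q : ℝ)) ^ p.K * (Fintype.card (Fin N → Fin p.Q) : ℝ)) := by
  let mk : (ℕ × ℕ) × (ℕ × ℕ) → Rect := fun e => ⟨e.1.1, e.1.2, e.2.1, e.2.2⟩
  let E₀ : Finset ((ℕ × ℕ) × (ℕ × ℕ)) :=
    (Finset.range n ×ˢ Finset.range n) ×ˢ (Finset.Icc 1 n ×ˢ Finset.Icc 1 n)
  let T : ℕ × ((ℕ × ℕ) × (ℕ × ℕ)) → Finset (Fin N → Fin p.Q) := fun e =>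
    Finset.univ.filter (fun ω =>
      p.K ≤ (FrQ p (A (inst p (ty ω) (β + 1))) β e.1 (mk e.2)).card ∧
      ∀ j ∈ FrQ p (A (inst p (ty ω) (β + 1))) β e.1 (mk e.2), ¬ ty ω j)
  set C : ℝ := (1 - 1 / (p.Q : ℝ)) ^ p.K * (Fintype.card (Fin N → Fin p.Q) : ℝ) with hC
  have hsub : (Finset.univ : Finset (Fin N → Fin p.Q)).filter (fun ω => ¬ Good p A (ty ω) β) ⊆
      (Finset.Ico (p.off β) (p.off (β + 1)) ×ˢ E₀).biUnion T := by
    intro ω hω
    have h1 := (Finset.mem_filter.1 hω).2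
    unfold Good at h1
    push Not at h1
    obtain ⟨m, hm, Z, hx, hy, hw, hh, hK, hno⟩ := h1
    refine Finset.mem_biUnion.2 ⟨(m, ((Z.x, Z.y), (Z.w, Z.h))), ?_, ?_⟩
    · simp only [E₀, Finset.mem_product, Finset.mem_range, Finset.mem_Icc]
      exact ⟨hm, ⟨by omega, by omega⟩, ⟨hw, by omega⟩, ⟨hh, by omega⟩⟩
    · simp only [T, mk, Finset.mem_filter, Finset.mem_univ, true_and]
      exact ⟨hK, hno⟩
  have h1 : (((Finset.univ : Finset (Fin N → Fin p.Q)).filter
      (fun ω => ¬ Good p A (ty ω) β)).card : ℝ) ≤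
      ∑ e ∈ Finset.Ico (p.off β) (p.off (β + 1)) ×ˢ E₀, ((T e).card : ℝ) := by
    have := (Finset.card_le_card hsub).trans Finset.card_biUnion_le
    exact_mod_cast this
  refine h1.trans ?_
  have h2 : ∑ e ∈ Finset.Ico (p.off β) (p.off (β + 1)) ×ˢ E₀, ((T e).card : ℝ) ≤
      ∑ e ∈ Finset.Ico (p.off β) (p.off (β + 1)) ×ˢ E₀, C := by
    apply Finset.sum_le_sum
    intro e he
    exact bad_one p hA hN (Finset.mem_product.1 he).1 (mk e.2)
  refine h2.trans (le_of_eq ?_)
  have h3 : (Finset.Ico (p.off β) (p.off (β + 1)) ×ˢ E₀).card = p.Nb (p.sh β) * (n * n * (n * n)) := by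
    rw [Finset.card_product, Nat.card_Ico, p.off_succ]
    simp [E₀, Finset.card_product]
  rw [Finset.sum_const, nsmul_eq_mul, h3]
  push_cast
  ring

end count

end Pool.Agent.Y649.Mesh
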