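import Pool.Agent.Helper472.Mesh.Adv

/-!
The random instances of the lower bound for randomized algorithms on the mesh. Every block
consists of equal jobs; every job of a block is long (running time `1`) or short (running time
`lam`). The next block becomes available when all short jobs of the previous blocks are finished.
-/

set_option autoImplicit false

open Classical

namespace Pool.Agent.Y649.Mesh

open Pool.Agent.Helper472.Mesh

/-- parameters -/
structure Par (n : ℕ) where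
  h : ℕ
  k : ℕ
  Q : ℕ
  K : ℕ
  n_pos : 1 ≤ n
  h_pos : 1 ≤ h
  K_pos : 1 ≤ K
  k_pow : k ^ h ≤ n
  Q_ge : 20 * (h * h) ^ 2 ≤ Q
  k_ge : 2 * (h * h) ^ 3 * K ≤ k
  K_ge : 20 * (n : ℝ) ^ 6 * (h * h) * (1 - 1 / (Q : ℝ)) ^ K ≤ 1

namespace Par

variable {n : ℕ} (p : Par n)

/-- number of shapes -/
def Φ : ℕ := p.h * p.h

def a (i : ℕ) : ℕ := p.k ^ (i / p.h)
def b (i : ℕ) : ℕ := p.k ^ (i % p.h)

/-- running time of the short jobs -/
noncomputable def lam : ℝ := 1 / (p.Φ : ℝ) ^ 2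

/-- the number of jobs in a block with shape number `i` -/
def Nb (i : ℕ) : ℕ := 4 * n ^ 2 / (p.a i * p.b i) + 1

/-- shape number of block `β` -/
def sh (β : ℕ) : ℕ := β % p.Φ

/-- first job of block `β` -/
def off (β : ℕ) : ℕ := ∑ γ ∈ Finset.range β, p.Nb (p.sh γ)

/-- the block of job `j` -/
def blk (j : ℕ) : ℕ := Nat.findGreatest (fun β => p.off β ≤ j) j

lemma Φ_pos : 0 < p.Φ := Nat.mul_pos p.h_pos p.h_pos

lemma Φ_pos' : (0 : ℝ) < p.Φ := by exact_mod_cast p.Φ_pos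

lemma one_le_Φ : (1 : ℝ) ≤ p.Φ := by exact_mod_cast p.Φ_pos

lemma Q_pos : 0 < p.Q := by
  have h1 := p.Q_ge
  have h2 : 0 < (p.h * p.h) ^ 2 := pow_pos p.Φ_pos 2
  omega

lemma Q_pos' : (0 : ℝ) < p.Q := by exact_mod_cast p.Q_pos

lemma k_pos : 0 < p.k := by
  have h1 := p.k_ge
  have h2 : 0 < 2 * (p.h * p.h) ^ 3 * p.K :=
    Nat.mul_pos (Nat.mul_pos two_pos (pow_pos p.Φ_pos 3)) p.K_pos
  omega

lemma lam_pos : 0 < p.lam := by
  have := p.Φ_pos'
  unfold lam
  positivity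

lemma lam_le_one : p.lam ≤ 1 := by
  have h1 := p.one_le_Φ
  unfold lam
  rw [div_le_one (by positivity)]
  exact one_le_pow₀ h1

lemma a_pos (i : ℕ) : 1 ≤ p.a i := Nat.one_le_pow _ _ p.k_pos
lemma b_pos (i : ℕ) : 1 ≤ p.b i := Nat.one_le_pow _ _ p.k_pos

lemma a_pos' (i : ℕ) : (0 : ℝ) < p.a i := by exact_mod_cast p.a_pos i
lemma b_pos' (i : ℕ) : (0 : ℝ) < p.b i := by exact_mod_cast p.b_pos i

lemma sh_lt (β : ℕ) : p.sh β < p.Φ := Nat.mod_lt _ p.Φ_pos

lemma a_le (β : ℕ) : p.a (p.sh β) ≤ n := by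
  refine le_trans ?_ p.k_pow
  apply Nat.pow_le_pow_right p.k_pos
  have := p.sh_lt β
  exact (Nat.div_lt_of_lt_mul this).le

lemma b_le (β : ℕ) : p.b (p.sh β) ≤ n := by
  refine le_trans ?_ p.k_pow
  apply Nat.pow_le_pow_right p.k_pos
  exact (Nat.mod_lt _ p.h_pos).le

lemma grow {i i' : ℕ} (h : i < i') : p.k * p.a i ≤ p.a i' ∨
    (p.a i = p.a i' ∧ p.k * p.b i ≤ p.b i') := by
  rcases lt_or_ge (i / p.h) (i' / p.h) with h1 | h1
  · left
    unfold a
    calc p.k * p.k ^ (i / p.h) = p.k ^ (i / p.h + 1) := by ring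
      _ ≤ p.k ^ (i' / p.h) := Nat.pow_le_pow_right p.k_pos h1
  · right
    have h2 : i / p.h = i' / p.h := le_antisymm (Nat.div_le_div_right h.le) h1
    have h3 : i % p.h < i' % p.h := by
      have e1 := Nat.div_add_mod i p.h
      have e2 := Nat.div_add_mod i' p.h
      rw [← h2] at e2
      omega
    refine ⟨by unfold a; rw [h2], ?_⟩
    unfold b
    calc p.k * p.k ^ (i % p.h) = p.k ^ (i % p.h + 1) := by ring
      _ ≤ p.k ^ (i' % p.h) := Nat.pow_le_pow_right p.k_pos h3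

lemma Nb_pos (i : ℕ) : 1 ≤ p.Nb i := Nat.le_add_left _ _

lemma Nb_ge (i : ℕ) : 4 * (n : ℝ) ^ 2 / ((p.a i : ℝ) * p.b i) ≤ p.Nb i := by
  have ha := p.a_pos' i
  have hb := p.b_pos' i
  rw [div_le_iff₀ (by positivity)]
  have hab : 0 < p.a i * p.b i := Nat.mul_pos (p.a_pos i) (p.b_pos i)
  have h1 : 4 * n ^ 2 < p.a i * p.b i * (4 * n ^ 2 / (p.a i * p.b i) + 1) :=
    Nat.lt_mul_div_succ _ hab
  have h2 : 4 * (n : ℝ) ^ 2 < (p.a i : ℝ) * p.b i * (p.Nb i : ℝ) := by
    unfold Nb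
    exact_mod_cast h1
  linarith

lemma Nb_le (β : ℕ) : (p.Nb (p.sh β) : ℝ) ≤
    5 * (n : ℝ) ^ 2 / ((p.a (p.sh β) : ℝ) * p.b (p.sh β)) := by
  have ha := p.a_pos' (p.sh β)
  have hb := p.b_pos' (p.sh β)
  have h1 : ((4 * n ^ 2 / (p.a (p.sh β) * p.b (p.sh β)) : ℕ) : ℝ) ≤
      4 * (n : ℝ) ^ 2 / ((p.a (p.sh β) : ℝ) * p.b (p.sh β)) := by
    have := @Nat.cast_div_le ℝ _ _ _ (4 * n ^ 2) (p.a (p.sh β) * p.b (p.sh β))
    push_cast at this
    exact_mod_cast this
  have h2 : (1 : ℝ) ≤ (n : ℝ) ^ 2 / ((p.a (p.sh β) : ℝ) * p.b (p.sh β)) := by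
    rw [le_div_iff₀ (by positivity), one_mul]
    have e1 : (p.a (p.sh β) : ℝ) ≤ n := by exact_mod_cast p.a_le β
    have e2 : (p.b (p.sh β) : ℝ) ≤ n := by exact_mod_cast p.b_le β
    nlinarith
  unfold Nb
  push_cast
  have e3 : 5 * (n : ℝ) ^ 2 / ((p.a (p.sh β) : ℝ) * p.b (p.sh β)) =
      4 * (n : ℝ) ^ 2 / ((p.a (p.sh β) : ℝ) * p.b (p.sh β)) +
      (n : ℝ) ^ 2 / ((p.a (p.sh β) : ℝ) * p.b (p.sh β)) := by ring
  rw [e3]
  have h3 : ((4 * n ^ 2 / (p.a (p.sh β) * p.b (p.sh β)) : ℕ) : ℝ) + 1 ≤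
      4 * (n : ℝ) ^ 2 / ((p.a (p.sh β) : ℝ) * p.b (p.sh β)) +
      (n : ℝ) ^ 2 / ((p.a (p.sh β) : ℝ) * p.b (p.sh β)) := by linarith
  exact_mod_cast h3

lemma off_succ (β : ℕ) : p.off (β + 1) = p.off β + p.Nb (p.sh β) := by
  unfold off
  rw [Finset.sum_range_succ]

lemma off_zero : p.off 0 = 0 := by simp [off]

lemma off_lt (β : ℕ) : p.off β < p.off (β + 1) := by
  rw [off_succ]
  have := p.Nb_pos (p.sh β)
  omega

lemma off_strictMono : StrictMono p.off := strictMono_nat_of_lt_succ p.off_lt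

lemma off_mono {β γ : ℕ} (h : β ≤ γ) : p.off β ≤ p.off γ := p.off_strictMono.monotone h

lemma le_off (β : ℕ) : β ≤ p.off β := p.off_strictMono.id_le β

lemma off_blk_le (j : ℕ) : p.off (p.blk j) ≤ j := by
  unfold blk
  exact Nat.findGreatest_spec (P := fun β => p.off β ≤ j) (Nat.zero_le j)
    (by rw [off_zero]; exact Nat.zero_le j)

lemma lt_off_blk (j : ℕ) : j < p.off (p.blk j + 1) := by
  by_contra hcon
  push Not at hcon
  have h1 : p.blk j + 1 ≤ j := le_trans (p.le_off _) hcon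
  have h2 : p.blk j + 1 ≤ p.blk j := Nat.le_findGreatest (P := fun β => p.off β ≤ j) h1 hcon
  omega

lemma blk_lt {j β : ℕ} : p.blk j < β ↔ j < p.off β := by
  constructor
  · intro h
    exact lt_of_lt_of_le (p.lt_off_blk j) (p.off_mono h)
  · intro h
    by_contra hcon
    push Not at hcon
    have := p.off_mono hcon
    have := p.off_blk_le j
    omega

lemma le_blk {j β : ℕ} : β ≤ p.blk j ↔ p.off β ≤ j := by
  have := @blk_lt n p j β
  rw [← not_lt, ← not_lt, this]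

lemma blk_eq {j β : ℕ} : p.blk j = β ↔ j ∈ Finset.Ico (p.off β) (p.off (β + 1)) := by
  rw [Finset.mem_Ico, ← le_blk, ← blk_lt]
  omega

end Par

variable {n : ℕ} (p : Par n)

/-- the instance with `B` blocks in which exactly the jobs `j` with `τ j` are long -/
noncomputable def inst (τ : ℕ → Prop) (B : ℕ) : Inst n where
  N := p.off B
  a := fun j => p.a (p.sh (p.blk j))
  b := fun j => p.b (p.sh (p.blk j))
  len := fun j => if τ j then 1 else p.lam
  pred := fun j => (Finset.range (p.off (p.blk j))).filter (fun i => ¬ τ i)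
  a_pos := fun j _ => p.a_pos _
  a_le := fun j _ => p.a_le _
  b_pos := fun j _ => p.b_pos _
  b_le := fun j _ => p.b_le _
  len_nonneg := by
    intro j _
    split_ifs
    · norm_num
    · exact p.lam_pos.le
  pred_lt := by
    intro j _ i hi
    have h1 := (Finset.mem_filter.1 hi).1
    rw [Finset.mem_range] at h1
    exact lt_of_lt_of_le h1 (p.off_blk_le j)

/-- finishing time -/
noncomputable def fin (τ : ℕ → Prop) (S : Sched) (j : ℕ) : ℝ := (inst p τ 0).finish S j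

/-- the time at which job `j` is finished if it is short -/
noncomputable def sf (S : Sched) (j : ℕ) : ℝ :=
  S.start j + p.lam * ((p.a (p.sh (p.blk j)) : ℝ) * (p.b (p.sh (p.blk j)) : ℝ)) /
    (((S.rect j).w : ℝ) * ((S.rect j).h : ℝ))

lemma finish_eq (τ : ℕ → Prop) (S : Sched) (B : ℕ) : (inst p τ B).finish S = fin p τ S := rfl

lemma fin_short {τ : ℕ → Prop} {S : Sched} {j : ℕ} (h : ¬ τ j) : fin p τ S j = sf p S j := by
  unfold fin sf Inst.finish inst
  simp [h]

lemma sf_le_fin (τ : ℕ → Prop) (S : Sched) (j : ℕ) : sf p S j ≤ fin p τ S j := by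
  by_cases h : τ j
  · unfold fin sf Inst.finish inst
    simp only [h, if_true]
    have h1 := p.lam_le_one
    have h2 : 0 ≤ (p.a (p.sh (p.blk j)) : ℝ) * (p.b (p.sh (p.blk j)) : ℝ) := by positivity
    gcongr
  · rw [fin_short p h]

/-- the time at which block `β` becomes available -/
noncomputable def R (τ : ℕ → Prop) (S : Sched) (β : ℕ) : ℝ :=
  ((Finset.range (p.off β)).filter (fun i => ¬ τ i)).fold max 0 (fin p τ S)

lemma R_zero (τ : ℕ → Prop) (S : Sched) : R p τ S 0 = 0 := by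
  simp [R, p.off_zero]

lemma R_nonneg (τ : ℕ → Prop) (S : Sched) (β : ℕ) : 0 ≤ R p τ S β := by
  unfold R
  rw [Finset.le_fold_max]
  exact Or.inl le_rfl

lemma fin_le_R {τ : ℕ → Prop} {S : Sched} {β j : ℕ} (hj : j < p.off β) (hτ : ¬ τ j) :
    fin p τ S j ≤ R p τ S β := by
  unfold R
  rw [Finset.le_fold_max]
  exact Or.inr ⟨j, Finset.mem_filter.2 ⟨Finset.mem_range.2 hj, hτ⟩, le_rfl⟩

lemma R_le {τ : ℕ → Prop} {S : Sched} {β : ℕ} {c : ℝ} (hc : 0 ≤ c)
    (h : ∀ j < p.off β, ¬ τ j → fin p τ S j ≤ c) : R p τ S β ≤ c := by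
  unfold R
  rw [Finset.fold_max_le]
  refine ⟨hc, ?_⟩
  intro j hj
  obtain ⟨h1, h2⟩ := Finset.mem_filter.1 hj
  exact h j (Finset.mem_range.1 h1) h2

lemma R_mono (τ : ℕ → Prop) (S : Sched) {β γ : ℕ} (h : β ≤ γ) : R p τ S β ≤ R p τ S γ :=
  R_le p (R_nonneg p τ S γ) (fun _ hj hτ => fin_le_R p (lt_of_lt_of_le hj (p.off_mono h)) hτ)

lemma R_attained {τ : ℕ → Prop} {S : Sched} {β : ℕ} (h : 0 < R p τ S β) :
    ∃ j < p.off β, ¬ τ j ∧ R p τ S β ≤ fin p τ S j := by
  have h1 : R p τ S β ≤ ((Finset.range (p.off β)).filter (fun i => ¬ τ i)).fold max 0 (fin p τ S) :=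
    le_rfl
  rw [Finset.le_fold_max] at h1
  rcases h1 with h1 | ⟨j, hj, h1⟩
  · linarith
  · obtain ⟨h2, h3⟩ := Finset.mem_filter.1 hj
    exact ⟨j, Finset.mem_range.1 h2, h3, h1⟩

section online

variable {τ : ℕ → Prop} {S : Sched} {B : ℕ}

lemma start_ge (hS : (inst p τ B).Feasible S) {β j : ℕ} (hj : j < p.off B) (hβ : p.off β ≤ j) :
    R p τ S β ≤ S.start j := by
  apply R_le p (hS.start_nonneg j hj)
  intro i hi hτ
  rw [← finish_eq p τ S B]
  apply hS.prec j hj i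
  have h1 : p.off β ≤ p.off (p.blk j) := p.off_mono (p.le_blk.2 hβ)
  exact Finset.mem_filter.2 ⟨Finset.mem_range.2 (lt_of_lt_of_le hi h1), hτ⟩

lemma w_pos' (hS : (inst p τ B).Feasible S) {j : ℕ} (hj : j < p.off B) :
    (0 : ℝ) < ((S.rect j).w : ℝ) := by
  have := hS.w_pos j hj
  exact_mod_cast this

lemma h_pos' (hS : (inst p τ B).Feasible S) {j : ℕ} (hj : j < p.off B) :
    (0 : ℝ) < ((S.rect j).h : ℝ) := by
  have := hS.h_pos j hj
  exact_mod_cast this

lemma start_lt_sf (hS : (inst p τ B).Feasible S) {j : ℕ} (hj : j < p.off B) :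
    S.start j < sf p S j := by
  have h1 := w_pos' p hS hj
  have h2 := h_pos' p hS hj
  have h3 := p.lam_pos
  have h4 := p.a_pos' (p.sh (p.blk j))
  have h5 := p.b_pos' (p.sh (p.blk j))
  unfold sf
  have : 0 < p.lam * ((p.a (p.sh (p.blk j)) : ℝ) * (p.b (p.sh (p.blk j)) : ℝ)) /
    (((S.rect j).w : ℝ) * ((S.rect j).h : ℝ)) := by positivity
  linarith

/-- before the release of block `β` the algorithm cannot see that there are more blocks -/
lemma trunc_same {B' : ℕ} (hB : B' ≤ B) (hpos : 0 < R p τ S B') :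
    SameInfo (inst p τ B) (inst p τ B') S (R p τ S B') := by
  obtain ⟨i, hi, hτ, hRi⟩ := R_attained p hpos
  have hnd : i ∉ (inst p τ B).done S (R p τ S B') := by
    intro h
    have h1 : fin p τ S i < R p τ S B' := (Finset.mem_filter.1 h).2
    linarith
  refine ⟨?_, ?_, ?_, ?_⟩
  · ext j
    simp only [Inst.known, Finset.mem_filter, Finset.mem_range]
    constructor
    · rintro ⟨h1, h2⟩
      exact ⟨lt_of_lt_of_le h1 (p.off_mono hB), h2⟩
    · rintro ⟨h1, h2⟩
      refine ⟨?_, h2⟩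
      by_contra hcon
      have h3 : p.off B' ≤ j := not_lt.1 hcon
      have h4 : p.off B' ≤ p.off (p.blk j) := p.off_mono (p.le_blk.2 h3)
      apply hnd
      apply h2
      exact Finset.mem_filter.2 ⟨Finset.mem_range.2 (lt_of_lt_of_le hi h4), hτ⟩
  · intro j _
    exact ⟨rfl, rfl, rfl⟩
  · intro j _
    rfl
  · intro j hj hjd
    rw [finish_eq]
    by_contra hcon
    push Not at hcon
    apply hjd
    exact Finset.mem_filter.2 ⟨(Finset.mem_filter.1 hj).1, hcon⟩

/-- changing the types of fresh jobs of the last block cannot be noticed -/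
lemma flip_same {τ' : ℕ → Prop} {β : ℕ} {t : ℝ} (G : Finset ℕ)
    (hG : ∀ j ∈ G, p.off β ≤ j ∧ t ≤ sf p S j) (hτ : ∀ j, j ∉ G → (τ' j ↔ τ j)) :
    SameInfo (inst p τ (β + 1)) (inst p τ' (β + 1)) S t := by
  have hpred : ∀ j < p.off (β + 1), (inst p τ' (β + 1)).pred j = (inst p τ (β + 1)).pred j := by
    intro j hj
    have h1 : p.blk j ≤ β := Nat.lt_succ_iff.1 (p.blk_lt.2 hj)
    apply Finset.filter_congr
    intro i hi
    rw [Finset.mem_range] at hi
    have h2 : i < p.off β := lt_of_lt_of_le hi (p.off_mono h1)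
    have h3 : i ∉ G := fun h => by
      have := (hG i h).1
      omega
    rw [hτ i h3]
  refine ⟨?_, ?_, ?_, ?_⟩
  · ext j
    simp only [Inst.known, Finset.mem_filter, Finset.mem_range]
    constructor
    · rintro ⟨h1, h2⟩
      refine ⟨h1, ?_⟩
      rw [← hpred j h1]
      exact h2
    · rintro ⟨h1, h2⟩
      refine ⟨h1, ?_⟩
      rw [hpred j h1]
      exact h2
  · intro j hj
    simp only [Inst.known, Finset.mem_filter, Finset.mem_range] at hj
    exact ⟨rfl, rfl, hpred j hj.1⟩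
  · intro j hj
    have h0 : fin p τ S j < t := (Finset.mem_filter.1 hj).2
    have h1 : j ∉ G := by
      intro h
      have h2 := (hG j h).2
      have h3 := sf_le_fin p τ S j
      linarith
    have h2 := hτ j h1
    change (if τ' j then (1 : ℝ) else p.lam) = if τ j then (1 : ℝ) else p.lam
    by_cases h3 : τ j
    · rw [if_pos h3, if_pos (h2.2 h3)]
    · rw [if_neg h3, if_neg (fun h4 => h3 (h2.1 h4))]
  · intro j hj hjd
    rw [finish_eq]
    by_cases h : j ∈ G
    · exact le_trans (hG j h).2 (sf_le_fin p τ' S j)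
    · have h2 := hτ j h
      have h3 : fin p τ' S j = fin p τ S j := by
        by_cases h4 : τ j
        · unfold fin Inst.finish inst
          simp [h4, h2.2 h4]
        · rw [fin_short p h4, fin_short p (fun h5 => h4 (h2.1 h5))]
      rw [h3]
      by_contra hcon
      push Not at hcon
      apply hjd
      exact Finset.mem_filter.2 ⟨(Finset.mem_filter.1 hj).1, hcon⟩

end online

end Pool.Agent.Y649.Mesh
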