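import Pool.Agent.Y649.Mesh.Prob

/-!
The offline optimum of the random instances.
-/

set_option autoImplicit false

open Classical

namespace Pool.Agent.Y649.Mesh

open Pool.Agent.Helper472.Mesh

variable {n : ℕ} (p : Par n)

noncomputable def sl (i : ℕ) : ℝ := (slots n (p.a i) (p.b i) : ℝ)

lemma sh_eq {i : ℕ} (hi : i < p.Φ) : p.sh i = i := Nat.mod_eq_of_lt hi

lemma sl_pos (β : ℕ) : 0 < sl p (p.sh β) := by
  unfold sl
  exact_mod_cast slots_pos (p.a_pos _) (p.a_le β) (p.b_pos _) (p.b_le β)

lemma Nb_div_sl (β : ℕ) : (p.Nb (p.sh β) : ℝ) / sl p (p.sh β) ≤ 20 := by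
  have h1 := p.Nb_le β
  have h2 := slots_ge (p.a_pos (p.sh β)) (p.a_le β) (p.b_pos (p.sh β)) (p.b_le β)
  have ha := p.a_pos' (p.sh β)
  have hb := p.b_pos' (p.sh β)
  rw [div_le_iff₀ (sl_pos p β)]
  refine h1.trans ?_
  have e : 5 * (n : ℝ) ^ 2 / ((p.a (p.sh β) : ℝ) * p.b (p.sh β)) =
      20 * ((n : ℝ) ^ 2 / (4 * ((p.a (p.sh β) : ℝ) * p.b (p.sh β)))) := by
    field_simp
    ring
  rw [e]
  unfold sl
  gcongr

section off

variable (τ : ℕ → Prop) (B : ℕ)

lemma opt_short : ∀ β ≤ B, ∃ S : Sched, FeasOn (inst p τ B) S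
    ((Finset.range (p.off β)).filter (fun j => ¬ τ j)) (β * (21 * p.lam)) := by
  intro β
  induction β with
  | zero =>
    intro _
    refine ⟨⟨fun _ => 0, fun _ => ⟨0, 0, 1, 1⟩⟩, ?_⟩
    constructor <;> simp [p.off_zero]
  | succ β ih =>
    intro hβ
    obtain ⟨S, hS⟩ := ih (by omega)
    have hlam := p.lam_pos
    obtain ⟨S', hS'⟩ := hS.extend (by positivity) (shorts p τ β) (p.a (p.sh β)) (p.b (p.sh β))
      p.lam hlam.le
      (fun j hj => lt_of_lt_of_le (Finset.mem_Ico.1 (Finset.mem_filter.1 hj).1).2 (p.off_mono hβ))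
      (fun j hj h => by
        have h1 := (Finset.mem_Ico.1 (Finset.mem_filter.1 hj).1).1
        have h2 := Finset.mem_range.1 (Finset.mem_filter.1 h).1
        omega)
      (fun j hj => by
        change p.a (p.sh (p.blk j)) = _
        rw [p.blk_eq.2 (Finset.mem_filter.1 hj).1])
      (fun j hj => by
        change p.b (p.sh (p.blk j)) = _
        rw [p.blk_eq.2 (Finset.mem_filter.1 hj).1])
      (fun j hj => by
        change (if τ j then (1 : ℝ) else p.lam) ≤ _
        rw [if_neg (Finset.mem_filter.1 hj).2])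
      (fun j hj => by
        change (Finset.range (p.off (p.blk j))).filter (fun i => ¬ τ i) ⊆ _
        rw [p.blk_eq.2 (Finset.mem_filter.1 hj).1])
      (p.a_pos _) (p.a_le β) (p.b_pos _) (p.b_le β)
    refine ⟨S', ?_⟩
    have e1 : (Finset.range (p.off β)).filter (fun j => ¬ τ j) ∪ shorts p τ β =
        (Finset.range (p.off (β + 1))).filter (fun j => ¬ τ j) := by
      unfold shorts
      rw [← Finset.filter_union]
      congr 1
      ext j
      simp only [Finset.mem_union, Finset.mem_range, Finset.mem_Ico]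
      have := p.off_lt β
      omega
    rw [e1] at hS'
    have e2 : (β : ℝ) * (21 * p.lam) + p.lam * (((shorts p τ β).card : ℝ) /
        (slots n (p.a (p.sh β)) (p.b (p.sh β)) : ℝ) + 1) ≤ ((β + 1 : ℕ) : ℝ) * (21 * p.lam) := by
      have e3 : ((shorts p τ β).card : ℝ) / sl p (p.sh β) ≤ 20 := by
        refine le_trans ?_ (Nb_div_sl p β)
        have e4 : ((shorts p τ β).card : ℝ) ≤ p.Nb (p.sh β) := by
          have := longs_add_shorts p τ β
          exact_mod_cast (by omega : (shorts p τ β).card ≤ p.Nb (p.sh β))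
        have := sl_pos p β
        gcongr
      have e5 : p.lam * (((shorts p τ β).card : ℝ) / sl p (p.sh β) + 1) ≤ p.lam * 21 := by
        apply mul_le_mul_of_nonneg_left _ hlam.le
        linarith
      change (β : ℝ) * (21 * p.lam) + p.lam * (((shorts p τ β).card : ℝ) / sl p (p.sh β) + 1) ≤ _
      push_cast
      linarith
    exact { hS' with fin := fun j hj => (hS'.fin j hj).trans e2 }

lemma opt_long : ∀ i ≤ p.Φ, ∃ S : Sched, FeasOn (inst p τ B) S
    ((Finset.range (p.off B)).filter (fun j => τ j → p.sh (p.blk j) < i))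
    (B * (21 * p.lam) + ∑ i' ∈ Finset.range i,
      ((((Finset.range (p.off B)).filter (fun j => τ j ∧ p.sh (p.blk j) = i')).card : ℝ) /
        sl p i' + 1)) := by
  intro i
  induction i with
  | zero =>
    intro _
    obtain ⟨S, hS⟩ := opt_short p τ B B le_rfl
    refine ⟨S, ?_⟩
    have e : (Finset.range (p.off B)).filter (fun j => τ j → p.sh (p.blk j) < 0) =
        (Finset.range (p.off B)).filter (fun j => ¬ τ j) := by
      apply Finset.filter_congr
      intro j _
      constructor
      · intro h1 h2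
        exact absurd (h1 h2) (Nat.not_lt_zero _)
      · intro h1 h2
        exact absurd h2 h1
    rw [e]
    simpa using hS
  | succ i ih =>
    intro hi
    obtain ⟨S, hS⟩ := ih (by omega)
    have hi' : i < p.Φ := hi
    have hlam := p.lam_pos
    have hK : 0 ≤ B * (21 * p.lam) + ∑ i' ∈ Finset.range i,
      ((((Finset.range (p.off B)).filter (fun j => τ j ∧ p.sh (p.blk j) = i')).card : ℝ) /
        sl p i' + 1) := by
      have : 0 ≤ ∑ i' ∈ Finset.range i,
        ((((Finset.range (p.off B)).filter (fun j => τ j ∧ p.sh (p.blk j) = i')).card : ℝ) /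
        sl p i' + 1) := by
        apply Finset.sum_nonneg
        intro i' _
        unfold sl
        positivity
      positivity
    have ha := p.a_le i
    have hb := p.b_le i
    rw [sh_eq p hi'] at ha hb
    obtain ⟨S', hS'⟩ := hS.extend hK
      ((Finset.range (p.off B)).filter (fun j => τ j ∧ p.sh (p.blk j) = i)) (p.a i) (p.b i)
      1 zero_le_one
      (fun j hj => Finset.mem_range.1 (Finset.mem_filter.1 hj).1)
      (fun j hj h => by
        obtain ⟨h1, h2, h3⟩ := Finset.mem_filter.1 hj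
        have h4 := (Finset.mem_filter.1 h).2 h2
        omega)
      (fun j hj => by
        change p.a (p.sh (p.blk j)) = _
        rw [(Finset.mem_filter.1 hj).2.2])
      (fun j hj => by
        change p.b (p.sh (p.blk j)) = _
        rw [(Finset.mem_filter.1 hj).2.2])
      (fun j hj => by
        change (if τ j then (1 : ℝ) else p.lam) ≤ _
        rw [if_pos (Finset.mem_filter.1 hj).2.1])
      (fun j hj => by
        change (Finset.range (p.off (p.blk j))).filter (fun i => ¬ τ i) ⊆ _
        intro l hl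
        obtain ⟨h1, h2⟩ := Finset.mem_filter.1 hl
        refine Finset.mem_filter.2 ⟨?_, fun h3 => absurd h3 h2⟩
        have h4 := Finset.mem_range.1 (Finset.mem_filter.1 hj).1
        have h5 := p.off_blk_le j
        have h6 := Finset.mem_range.1 h1
        exact Finset.mem_range.2 (by omega))
      (p.a_pos _) ha (p.b_pos _) hb
    refine ⟨S', ?_⟩
    have e1 : (Finset.range (p.off B)).filter (fun j => τ j → p.sh (p.blk j) < i) ∪
        (Finset.range (p.off B)).filter (fun j => τ j ∧ p.sh (p.blk j) = i) =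
        (Finset.range (p.off B)).filter (fun j => τ j → p.sh (p.blk j) < i + 1) := by
      rw [← Finset.filter_or]
      apply Finset.filter_congr
      intro j _
      by_cases h : τ j
      · simp only [h, true_implies, true_and]
        omega
      · simp [h]
    rw [e1, one_mul, add_assoc] at hS'
    rw [Finset.sum_range_succ]
    exact hS'

lemma opt_le_sum : (inst p τ B).opt ≤ B * (21 * p.lam) + p.Φ +
    ∑ β ∈ Finset.range B, ((longs p τ β).card : ℝ) / sl p (p.sh β) := by
  obtain ⟨S, hS⟩ := opt_long p τ B p.Φ le_rfl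
  have hlam := p.lam_pos
  have hfeas := hS.feasible (fun j hj => Finset.mem_filter.2
    ⟨Finset.mem_range.2 hj, fun _ => p.sh_lt _⟩)
  have h1 : (inst p τ B).makespan S ≤ B * (21 * p.lam) + ∑ i' ∈ Finset.range p.Φ,
      ((((Finset.range (p.off B)).filter (fun j => τ j ∧ p.sh (p.blk j) = i')).card : ℝ) /
        sl p i' + 1) := by
    apply Inst.makespan_le
    · have : 0 ≤ ∑ i' ∈ Finset.range p.Φ,
        ((((Finset.range (p.off B)).filter (fun j => τ j ∧ p.sh (p.blk j) = i')).card : ℝ) /
        sl p i' + 1) := by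
        apply Finset.sum_nonneg
        intro i' _
        unfold sl
        positivity
      positivity
    · intro j hj
      exact hS.fin j (Finset.mem_filter.2 ⟨Finset.mem_range.2 hj, fun _ => p.sh_lt _⟩)
  refine (Inst.opt_le hfeas).trans (h1.trans ?_)
  rw [Finset.sum_add_distrib, Finset.sum_const, Finset.card_range, nsmul_eq_mul, mul_one]
  have h2 : ∀ i' ∈ Finset.range p.Φ,
      (((Finset.range (p.off B)).filter (fun j => τ j ∧ p.sh (p.blk j) = i')).card : ℝ) /
        sl p i' ≤ ∑ β ∈ (Finset.range B).filter (fun β => p.sh β = i'),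
          ((longs p τ β).card : ℝ) / sl p (p.sh β) := by
    intro i' hi'
    have hi := Finset.mem_range.1 hi'
    have hsl : 0 < sl p i' := by
      have := sl_pos p i'
      rwa [sh_eq p hi] at this
    have h3 : (Finset.range (p.off B)).filter (fun j => τ j ∧ p.sh (p.blk j) = i') ⊆
        ((Finset.range B).filter (fun β => p.sh β = i')).biUnion (fun β => longs p τ β) := by
      intro j hj
      obtain ⟨h4, h5, h6⟩ := Finset.mem_filter.1 hj
      refine Finset.mem_biUnion.2 ⟨p.blk j, Finset.mem_filter.2 ⟨?_, h6⟩, ?_⟩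
      · exact Finset.mem_range.2 (p.blk_lt.2 (Finset.mem_range.1 h4))
      · exact Finset.mem_filter.2 ⟨p.blk_eq.1 rfl, h5⟩
    have h4 : (((Finset.range (p.off B)).filter (fun j => τ j ∧ p.sh (p.blk j) = i')).card : ℝ) ≤
        ∑ β ∈ (Finset.range B).filter (fun β => p.sh β = i'), ((longs p τ β).card : ℝ) := by
      exact_mod_cast (Finset.card_le_card h3).trans Finset.card_biUnion_le
    rw [div_le_iff₀ hsl, Finset.sum_mul]
    refine h4.trans (le_of_eq ?_)
    apply Finset.sum_congr rfl
    intro β hβ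
    rw [(Finset.mem_filter.1 hβ).2]
    field_simp
  have h3 := Finset.sum_le_sum h2
  have h4 : ∑ i' ∈ Finset.range p.Φ, ∑ β ∈ (Finset.range B).filter (fun β => p.sh β = i'),
          ((longs p τ β).card : ℝ) / sl p (p.sh β) =
      ∑ β ∈ Finset.range B, ((longs p τ β).card : ℝ) / sl p (p.sh β) :=
    Finset.sum_fiberwise_of_maps_to (fun β _ => Finset.mem_range.2 (p.sh_lt β)) _
  rw [h4] at h3
  linarith

end off

/-- the average of the offline optimum -/
theorem sum_opt_le (r : ℕ) :
    ∑ ω : Fin (p.off (r * p.Φ)) → Fin p.Q, (inst p (ty ω) (r * p.Φ)).opt ≤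
      (22 * r / p.Φ + p.Φ) * (Fintype.card (Fin (p.off (r * p.Φ)) → Fin p.Q) : ℝ) := by
  set B := r * p.Φ with hB
  set N := p.off B with hN
  set c : ℝ := (Fintype.card (Fin N → Fin p.Q) : ℝ) with hc
  have hc0 : 0 ≤ c := by positivity
  have hΦ := p.Φ_pos'
  have hQ := p.Q_pos'
  have hQge : 20 * (p.Φ : ℝ) ^ 2 ≤ p.Q := by
    have := p.Q_ge
    unfold Par.Φ
    exact_mod_cast this
  have h1 := Finset.sum_le_sum (s := (Finset.univ : Finset (Fin N → Fin p.Q)))
    (fun ω _ => opt_le_sum p (ty ω) B)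
  refine h1.trans ?_
  rw [Finset.sum_add_distrib, Finset.sum_const, Finset.card_univ, nsmul_eq_mul, Finset.sum_comm]
  have h2 : ∀ β ∈ Finset.range B, ∑ ω : Fin N → Fin p.Q,
      ((longs p (ty ω) β).card : ℝ) / sl p (p.sh β) ≤ 20 * (c / p.Q) := by
    intro β hβ
    rw [← Finset.sum_div, sum_longs p (N := N) (β := β) (by
      rw [hN]
      exact p.off_mono (Finset.mem_range.1 hβ))]
    have e1 := Nb_div_sl p β
    calc (p.Nb (p.sh β) : ℝ) * (c / p.Q) / sl p (p.sh β) =
          ((p.Nb (p.sh β) : ℝ) / sl p (p.sh β)) * (c / p.Q) := by ring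
      _ ≤ 20 * (c / p.Q) := by gcongr
  have h3 := Finset.sum_le_sum h2
  rw [Finset.sum_const, Finset.card_range, nsmul_eq_mul] at h3
  have h4 : (B : ℝ) * (20 * (c / p.Q)) ≤ r / p.Φ * c := by
    have e1 : (B : ℝ) = r * p.Φ := by rw [hB]; push_cast; rfl
    have e2 : c / (p.Q : ℝ) ≤ c / (20 * (p.Φ : ℝ) ^ 2) := by gcongr
    calc (B : ℝ) * (20 * (c / p.Q)) ≤ (B : ℝ) * (20 * (c / (20 * (p.Φ : ℝ) ^ 2))) := by gcongr
      _ = r / p.Φ * c := by
        rw [e1]
        field_simp
  have h5 : (B : ℝ) * (21 * p.lam) = 21 * r / p.Φ := by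
    have e1 : (B : ℝ) = r * p.Φ := by rw [hB]; push_cast; rfl
    rw [e1]
    unfold Par.lam
    field_simp
  rw [h5]
  have h6 : (22 * (r : ℝ) / p.Φ + p.Φ) * c = c * (21 * r / p.Φ + p.Φ) + r / p.Φ * c := by
    field_simp
    ring
  rw [h6]
  linarith

end Pool.Agent.Y649.Mesh
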