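import Pool.Agent.Y649.Mesh.Round2

/-!
On average `r` rounds take time at least `r / 2`.
-/

set_option autoImplicit false

open Classical

namespace Pool.Agent.Y649.Mesh

open Pool.Agent.Helper472.Mesh

variable {n : ℕ} (p : Par n)

/-- long jobs of block `β` -/
noncomputable def longs (τ : ℕ → Prop) (β : ℕ) : Finset ℕ :=
  (Finset.Ico (p.off β) (p.off (β + 1))).filter (fun j => τ j)

lemma longs_add_shorts (τ : ℕ → Prop) (β : ℕ) :
    (longs p τ β).card + (shorts p τ β).card = p.Nb (p.sh β) := by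
  unfold longs shorts
  rw [Finset.card_filter_add_card_filter_not, Nat.card_Ico, p.off_succ]
  omega

lemma sum_longs {N β : ℕ} (hN : p.off (β + 1) ≤ N) :
    ∑ ω : Fin N → Fin p.Q, ((longs p (ty ω) β).card : ℝ) =
      (p.Nb (p.sh β) : ℝ) * ((Fintype.card (Fin N → Fin p.Q) : ℝ) / p.Q) := by
  have h1 : ∀ ω : Fin N → Fin p.Q, ((longs p (ty ω) β).card : ℝ) =
      ∑ j ∈ Finset.Ico (p.off β) (p.off (β + 1)), if ty ω j then (1 : ℝ) else 0 := by
    intro ω
    unfold longs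
    rw [Finset.card_filter]
    push_cast
    rfl
  simp only [h1]
  rw [Finset.sum_comm]
  have h2 : ∀ j ∈ Finset.Ico (p.off β) (p.off (β + 1)),
      ∑ ω : Fin N → Fin p.Q, (if ty ω j then (1 : ℝ) else 0) =
        (Fintype.card (Fin N → Fin p.Q) : ℝ) / p.Q := by
    intro j hj
    have hjN : j < N := lt_of_lt_of_le (Finset.mem_Ico.1 hj).2 hN
    rw [← card_letter (⟨0, p.Q_pos⟩ : Fin p.Q) (⟨j, hjN⟩ : Fin N), Finset.card_filter]
    push_cast
    apply Finset.sum_congr rfl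
    intro ω _
    have : ty ω j ↔ ω ⟨j, hjN⟩ = ⟨0, p.Q_pos⟩ := by
      unfold ty
      rw [Fin.ext_iff]
      exact ⟨fun ⟨_, h⟩ => h, fun h => ⟨hjN, h⟩⟩
    by_cases h : ty ω j
    · rw [if_pos h, if_pos (this.1 h)]
    · rw [if_neg h, if_neg (fun h' => h (this.2 h'))]
  rw [Finset.sum_congr rfl h2, Finset.sum_const, Nat.card_Ico, p.off_succ, nsmul_eq_mul,
    Nat.add_sub_cancel_left]

lemma few_card {N β : ℕ} (hN : p.off (β + 1) ≤ N) :
    (((Finset.univ : Finset (Fin N → Fin p.Q)).filter (fun ω =>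
      2 * ((shorts p (ty ω) β).card : ℝ) < p.Nb (p.sh β))).card : ℝ) ≤
      2 / p.Q * (Fintype.card (Fin N → Fin p.Q) : ℝ) := by
  set X := (Finset.univ : Finset (Fin N → Fin p.Q)).filter (fun ω =>
      2 * ((shorts p (ty ω) β).card : ℝ) < p.Nb (p.sh β)) with hX
  have hNb : (0 : ℝ) < p.Nb (p.sh β) := by exact_mod_cast p.Nb_pos (p.sh β)
  have hQ := p.Q_pos'
  have h1 : (X.card : ℝ) * ((p.Nb (p.sh β) : ℝ) / 2) ≤
      ∑ ω : Fin N → Fin p.Q, ((longs p (ty ω) β).card : ℝ) := by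
    have h2 : ∑ ω ∈ X, ((p.Nb (p.sh β) : ℝ) / 2) ≤ ∑ ω ∈ X, ((longs p (ty ω) β).card : ℝ) := by
      apply Finset.sum_le_sum
      intro ω hω
      have h3 := (Finset.mem_filter.1 hω).2
      have h4 : ((longs p (ty ω) β).card : ℝ) + (shorts p (ty ω) β).card = p.Nb (p.sh β) := by
        exact_mod_cast longs_add_shorts p (ty ω) β
      linarith
    rw [Finset.sum_const, nsmul_eq_mul] at h2
    refine h2.trans ?_
    apply Finset.sum_le_sum_of_subset_of_nonneg (Finset.filter_subset _ _)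
    intro ω _ _
    positivity
  rw [sum_longs p hN] at h1
  have h5 : (p.Nb (p.sh β) : ℝ) * ((Fintype.card (Fin N → Fin p.Q) : ℝ) / p.Q) =
      (2 / p.Q * (Fintype.card (Fin N → Fin p.Q) : ℝ)) * ((p.Nb (p.sh β) : ℝ) / 2) := by
    field_simp
  rw [h5] at h1
  exact le_of_mul_le_mul_right h1 (by positivity)

/-- all blocks of round `ρ` are good -/
def GoodRound (A : Inst n → Sched) (τ : ℕ → Prop) (ρ : ℕ) : Prop :=
  ∀ i < p.Φ, Good p A τ (ρ * p.Φ + i) ∧
    (p.Nb (p.sh (ρ * p.Φ + i)) : ℝ) ≤ 2 * (shorts p τ (ρ * p.Φ + i)).card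

lemma goodRound_card {A : Inst n → Sched} (hA : Online A) {N ρ : ℕ}
    (hN : p.off (ρ * p.Φ + p.Φ) ≤ N) :
    (Fintype.card (Fin N → Fin p.Q) : ℝ) / 2 ≤
      (((Finset.univ : Finset (Fin N → Fin p.Q)).filter
        (fun ω => GoodRound p A (ty ω) ρ)).card : ℝ) := by
  set c : ℝ := (Fintype.card (Fin N → Fin p.Q) : ℝ) with hc
  have hc0 : 0 ≤ c := by positivity
  let T : ℕ → Finset (Fin N → Fin p.Q) := fun i =>
    Finset.univ.filter (fun ω => ¬ Good p A (ty ω) (ρ * p.Φ + i))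
  let T' : ℕ → Finset (Fin N → Fin p.Q) := fun i =>
    Finset.univ.filter (fun ω => 2 * ((shorts p (ty ω) (ρ * p.Φ + i)).card : ℝ) <
      p.Nb (p.sh (ρ * p.Φ + i)))
  have hsub : (Finset.univ : Finset (Fin N → Fin p.Q)).filter
      (fun ω => ¬ GoodRound p A (ty ω) ρ) ⊆ (Finset.range p.Φ).biUnion (fun i => T i ∪ T' i) := by
    intro ω hω
    have h1 := (Finset.mem_filter.1 hω).2
    unfold GoodRound at h1
    push Not at h1
    obtain ⟨i, hi, h2⟩ := h1
    refine Finset.mem_biUnion.2 ⟨i, Finset.mem_range.2 hi, ?_⟩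
    by_cases hg : Good p A (ty ω) (ρ * p.Φ + i)
    · exact Finset.mem_union_right _ (Finset.mem_filter.2 ⟨Finset.mem_univ _, h2 hg⟩)
    · exact Finset.mem_union_left _ (Finset.mem_filter.2 ⟨Finset.mem_univ _, hg⟩)
  have hn1 : (1 : ℝ) ≤ n := by exact_mod_cast p.n_pos
  have hΦ := p.Φ_pos'
  have hΦ1 := p.one_le_Φ
  have hQ := p.Q_pos'
  have hQge : 20 * (p.Φ : ℝ) ^ 2 ≤ p.Q := by
    have := p.Q_ge
    unfold Par.Φ
    exact_mod_cast this
  have h1 : (((Finset.univ : Finset (Fin N → Fin p.Q)).filter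
      (fun ω => ¬ GoodRound p A (ty ω) ρ)).card : ℝ) ≤
      ∑ i ∈ Finset.range p.Φ, (((T i).card : ℝ) + ((T' i).card : ℝ)) := by
    have e1 := (Finset.card_le_card hsub).trans Finset.card_biUnion_le
    have e2 : ∑ i ∈ Finset.range p.Φ, (T i ∪ T' i).card ≤
        ∑ i ∈ Finset.range p.Φ, ((T i).card + (T' i).card) :=
      Finset.sum_le_sum (fun i _ => Finset.card_union_le _ _)
    exact_mod_cast e1.trans e2
  set q : ℝ := (1 - 1 / (p.Q : ℝ)) ^ p.K with hq
  have hq0 : 0 ≤ q := by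
    apply pow_nonneg
    rw [sub_nonneg, div_le_one hQ]
    nlinarith
  have h2 : ∀ i ∈ Finset.range p.Φ, ((T i).card : ℝ) + ((T' i).card : ℝ) ≤
      5 * (n : ℝ) ^ 6 * (q * c) + 2 / p.Q * c := by
    intro i hi
    have hi' := Finset.mem_range.1 hi
    have hN' : p.off (ρ * p.Φ + i + 1) ≤ N := le_trans (p.off_mono (by omega)) hN
    have e1 := bad_card p hA (N := N) (β := ρ * p.Φ + i) hN'
    have e2 := few_card p (N := N) (β := ρ * p.Φ + i) hN'
    have e3 : (p.Nb (p.sh (ρ * p.Φ + i)) : ℝ) ≤ 5 * (n : ℝ) ^ 2 := by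
      refine (p.Nb_le (ρ * p.Φ + i)).trans ?_
      have ha : (1 : ℝ) ≤ p.a (p.sh (ρ * p.Φ + i)) := by exact_mod_cast p.a_pos _
      have hb : (1 : ℝ) ≤ p.b (p.sh (ρ * p.Φ + i)) := by exact_mod_cast p.b_pos _
      rw [div_le_iff₀ (by positivity)]
      have : 1 ≤ (p.a (p.sh (ρ * p.Φ + i)) : ℝ) * p.b (p.sh (ρ * p.Φ + i)) := by nlinarith
      nlinarith [sq_nonneg (n : ℝ)]
    have e4 : (p.Nb (p.sh (ρ * p.Φ + i)) : ℝ) * (n : ℝ) ^ 4 * (q * c) ≤
        5 * (n : ℝ) ^ 6 * (q * c) := by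
      apply mul_le_mul_of_nonneg_right _ (by positivity)
      calc (p.Nb (p.sh (ρ * p.Φ + i)) : ℝ) * (n : ℝ) ^ 4 ≤ 5 * (n : ℝ) ^ 2 * (n : ℝ) ^ 4 := by
            gcongr
        _ = 5 * (n : ℝ) ^ 6 := by ring
    have e5 : ((T i).card : ℝ) ≤ 5 * (n : ℝ) ^ 6 * (q * c) := e1.trans e4
    have e6 : ((T' i).card : ℝ) ≤ 2 / p.Q * c := e2
    linarith
  have h3 := h1.trans (Finset.sum_le_sum h2)
  rw [Finset.sum_const, Finset.card_range, nsmul_eq_mul] at h3
  have h4 : (p.Φ : ℝ) * (5 * (n : ℝ) ^ 6 * (q * c) + 2 / p.Q * c) ≤ c / 2 := by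
    have e1 : 20 * (n : ℝ) ^ 6 * (p.Φ : ℝ) * q ≤ 1 := by
      have := p.K_ge
      have e : (p.Φ : ℝ) = (p.h : ℝ) * p.h := by
        unfold Par.Φ
        push_cast
        rfl
      rw [e]
      exact this
    have e2 : (p.Φ : ℝ) * (2 / p.Q) ≤ 1 / 4 := by
      rw [← mul_div_assoc, div_le_iff₀ hQ]
      nlinarith
    have e3 : (p.Φ : ℝ) * (5 * (n : ℝ) ^ 6 * (q * c) + 2 / p.Q * c) =
        (20 * (n : ℝ) ^ 6 * (p.Φ : ℝ) * q) * (c / 4) + (p.Φ : ℝ) * (2 / p.Q) * c := by ring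
    rw [e3]
    nlinarith
  have h5 : (((Finset.univ : Finset (Fin N → Fin p.Q)).filter
        (fun ω => GoodRound p A (ty ω) ρ)).card : ℝ) +
      (((Finset.univ : Finset (Fin N → Fin p.Q)).filter
        (fun ω => ¬ GoodRound p A (ty ω) ρ)).card : ℝ) = c := by
    have := Finset.card_filter_add_card_filter_not (s := (Finset.univ : Finset (Fin N → Fin p.Q)))
      (fun ω => GoodRound p A (ty ω) ρ)
    rw [Finset.card_univ] at this
    rw [hc]
    exact_mod_cast this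
  linarith

/-- `r` rounds take time at least `r / 2` on average -/
theorem sum_R_ge {A : Inst n → Sched} (hA : Online A) (r : ℕ) :
    (r : ℝ) / 2 * (Fintype.card (Fin (p.off (r * p.Φ)) → Fin p.Q) : ℝ) ≤
      ∑ ω : Fin (p.off (r * p.Φ)) → Fin p.Q,
        R p (ty ω) (A (inst p (ty ω) (r * p.Φ))) (r * p.Φ) := by
  set B := r * p.Φ with hB
  set N := p.off B with hN
  have h1 : ∀ ω : Fin N → Fin p.Q,
      ∑ ρ ∈ Finset.range r, (if GoodRound p A (ty ω) ρ then (1 : ℝ) else 0) ≤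
        R p (ty ω) (A (inst p (ty ω) B)) B := by
    intro ω
    set S := A (inst p (ty ω) B) with hS
    have h2 : ∀ m ≤ r, ∑ ρ ∈ Finset.range m, (if GoodRound p A (ty ω) ρ then (1 : ℝ) else 0) ≤
        R p (ty ω) S (m * p.Φ) := by
      intro m
      induction m with
      | zero =>
        intro _
        simpa using R_nonneg p (ty ω) S _
      | succ m ih =>
        intro hm
        have ih' := ih (by omega)
        rw [Finset.sum_range_succ]
        have hle : m * p.Φ + p.Φ ≤ B := by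
          rw [hB]
          calc m * p.Φ + p.Φ = (m + 1) * p.Φ := by ring
            _ ≤ r * p.Φ := Nat.mul_le_mul_right _ hm
        have e : (m + 1) * p.Φ = m * p.Φ + p.Φ := by ring
        rw [e]
        by_cases hg : GoodRound p A (ty ω) m
        · rw [if_pos hg]
          have := round_ge p hA hle (fun i hi => (hg i hi).1) (fun i hi => (hg i hi).2)
          linarith
        · rw [if_neg hg]
          have := R_mono p (ty ω) S (show m * p.Φ ≤ m * p.Φ + p.Φ by omega)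
          linarith
    exact h2 r le_rfl
  refine le_trans ?_ (Finset.sum_le_sum (fun ω _ => h1 ω))
  rw [Finset.sum_comm]
  have h3 : ∀ ρ ∈ Finset.range r, (Fintype.card (Fin N → Fin p.Q) : ℝ) / 2 ≤
      ∑ ω : Fin N → Fin p.Q, (if GoodRound p A (ty ω) ρ then (1 : ℝ) else 0) := by
    intro ρ hρ
    have hρ' := Finset.mem_range.1 hρ
    have h4 := goodRound_card p hA (N := N) (ρ := ρ) (by
      rw [hN, hB]
      apply p.off_mono
      calc ρ * p.Φ + p.Φ = (ρ + 1) * p.Φ := by ring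
        _ ≤ r * p.Φ := Nat.mul_le_mul_right _ hρ')
    rw [Finset.card_filter] at h4
    push_cast at h4
    exact_mod_cast h4
  have h5 := Finset.sum_le_sum h3
  rw [Finset.sum_const, Finset.card_range, nsmul_eq_mul] at h5
  refine le_trans (le_of_eq ?_) h5
  ring

end Pool.Agent.Y649.Mesh
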