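import Pool.Agent.Y649.Mesh.Opt
import Pool.Agent.Helper472.Mesh.Asym

/-!
Randomized online algorithms and the final bound.
-/

set_option autoImplicit false

open Classical MeasureTheory

namespace Pool.Agent.Y649.Mesh

open Pool.Agent.Helper472.Mesh

/-- A randomized online algorithm: a probability space and, for every outcome of the random
choices, a deterministic online algorithm, such that the makespan on every instance is a
random variable. -/
structure RandAlg (n : ℕ) where
  Ω : Type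
  ms : MeasurableSpace Ω
  μ : Measure Ω
  prob : IsProbabilityMeasure μ
  alg : Ω → Inst n → Sched
  online : ∀ ω, Online (alg ω)
  meas : ∀ I : Inst n, Measurable (fun ω => I.makespan (alg ω I))

/-- the expected makespan on the instance `I`, which is fixed in advance -/
noncomputable def RandAlg.expected {n : ℕ} (D : RandAlg n) (I : Inst n) : ENNReal :=
  letI := D.ms
  ∫⁻ ω, ENNReal.ofReal (I.makespan (D.alg ω I)) ∂D.μ

/-- the randomized algorithm is `ρ`-competitive -/
def RandAlg.Competitive {n : ℕ} (D : RandAlg n) (ρ : ℝ) : Prop :=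
  ∀ I : Inst n, D.expected I ≤ ENNReal.ofReal (ρ * I.opt)

/-- `R_rand(m)` for the mesh with `m = n ^ 2` processors: the optimal randomized
competitive ratio. -/
noncomputable def Rrand (n : ℕ) : ℝ :=
  sInf {ρ : ℝ | ∃ D : RandAlg n, D.Competitive ρ}

variable {n : ℕ} (p : Par n)

lemma R_le_makespan {τ : ℕ → Prop} {S : Sched} {B : ℕ} (hS : (inst p τ B).Feasible S) :
    R p τ S B ≤ (inst p τ B).makespan S := by
  apply R_le p (Inst.makespan_nonneg hS)
  intro j hj _
  exact (inst p τ B).le_makespan S hj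

lemma opt_nonneg (I : Inst n) : 0 ≤ I.opt := by
  unfold Inst.opt
  apply Real.sInf_nonneg
  rintro _ ⟨S, hS, rfl⟩
  exact Inst.makespan_nonneg hS

lemma sum_le (D : RandAlg n) {ρ : ℝ} (hρ : D.Competitive ρ) (r : ℕ) :
    (r : ℝ) / 2 ≤ max ρ 0 * (22 * r / p.Φ + p.Φ) := by
  let _ := D.ms
  have _ := D.prob
  set B := r * p.Φ with hB
  set N := p.off B with hN
  set c : ℝ := (Fintype.card (Fin N → Fin p.Q) : ℝ) with hc
  have hc0 : 0 < c := by
    have : Nonempty (Fin p.Q) := ⟨⟨0, p.Q_pos⟩⟩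
    have : 0 < Fintype.card (Fin N → Fin p.Q) := Fintype.card_pos
    rw [hc]
    exact_mod_cast this
  have hΦ := p.Φ_pos'
  have h1 : ∀ ω : D.Ω, ENNReal.ofReal ((r : ℝ) / 2 * c) ≤
      ∑ w : Fin N → Fin p.Q,
        ENNReal.ofReal ((inst p (ty w) B).makespan (D.alg ω (inst p (ty w) B))) := by
    intro ω
    rw [← ENNReal.ofReal_sum_of_nonneg
      (fun w _ => Inst.makespan_nonneg ((D.online ω).feasible _))]
    apply ENNReal.ofReal_le_ofReal
    refine (sum_R_ge p (D.online ω) r).trans ?_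
    apply Finset.sum_le_sum
    intro w _
    exact R_le_makespan p ((D.online ω).feasible _)
  have h2 : ENNReal.ofReal ((r : ℝ) / 2 * c) ≤
      ∑ w : Fin N → Fin p.Q, D.expected (inst p (ty w) B) := by
    calc ENNReal.ofReal ((r : ℝ) / 2 * c) = ∫⁻ _ω : D.Ω, ENNReal.ofReal ((r : ℝ) / 2 * c) ∂D.μ := by
          rw [lintegral_const, measure_univ, mul_one]
      _ ≤ ∫⁻ ω : D.Ω, ∑ w : Fin N → Fin p.Q,
          ENNReal.ofReal ((inst p (ty w) B).makespan (D.alg ω (inst p (ty w) B))) ∂D.μ :=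
          lintegral_mono h1
      _ = ∑ w : Fin N → Fin p.Q, D.expected (inst p (ty w) B) := by
          rw [lintegral_finsetSum]
          · rfl
          · intro w _
            exact ENNReal.measurable_ofReal.comp (D.meas _)
  have h3 : ∑ w : Fin N → Fin p.Q, D.expected (inst p (ty w) B) ≤
      ENNReal.ofReal (max ρ 0 * ((22 * r / p.Φ + p.Φ) * c)) := by
    calc ∑ w : Fin N → Fin p.Q, D.expected (inst p (ty w) B)
        ≤ ∑ w : Fin N → Fin p.Q, ENNReal.ofReal (max ρ 0 * (inst p (ty w) B).opt) := by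
          apply Finset.sum_le_sum
          intro w _
          refine (hρ _).trans ?_
          apply ENNReal.ofReal_le_ofReal
          exact mul_le_mul_of_nonneg_right (le_max_left _ _) (opt_nonneg _)
      _ = ENNReal.ofReal (∑ w : Fin N → Fin p.Q, max ρ 0 * (inst p (ty w) B).opt) := by
          rw [ENNReal.ofReal_sum_of_nonneg]
          intro w _
          exact mul_nonneg (le_max_right _ _) (opt_nonneg _)
      _ ≤ ENNReal.ofReal (max ρ 0 * ((22 * r / p.Φ + p.Φ) * c)) := by
          apply ENNReal.ofReal_le_ofReal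
          rw [← Finset.mul_sum]
          exact mul_le_mul_of_nonneg_left (sum_opt_le p r) (le_max_right _ _)
  have h4 := h2.trans h3
  rw [ENNReal.ofReal_le_ofReal_iff (by positivity)] at h4
  have h5 : (r : ℝ) / 2 * c ≤ (max ρ 0 * (22 * r / p.Φ + p.Φ)) * c := by
    rw [mul_assoc]
    exact h4
  exact le_of_mul_le_mul_right h5 hc0

/-- the bound for fixed parameters -/
theorem rand_bound (D : RandAlg n) {ρ : ℝ} (hρ : D.Competitive ρ) : (p.Φ : ℝ) / 44 ≤ ρ := by
  have hΦ := p.Φ_pos'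
  have key : (p.Φ : ℝ) / 44 ≤ max ρ 0 := by
    by_contra hcon
    push Not at hcon
    set q := max ρ 0 with hq
    have hq0 : 0 ≤ q := le_max_right _ _
    have h1 : 0 < 1 / 2 - 22 * q / p.Φ := by
      have : 22 * q / p.Φ < 1 / 2 := by
        rw [div_lt_iff₀ hΦ]
        linarith
      linarith
    obtain ⟨r, hr⟩ := exists_nat_gt (q * p.Φ / (1 / 2 - 22 * q / p.Φ))
    rw [div_lt_iff₀ h1] at hr
    have h2 := sum_le p D hρ r
    rw [← hq] at h2
    have h3 : q * (22 * r / p.Φ + p.Φ) = 22 * q / p.Φ * r + q * p.Φ := by ring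
    rw [h3] at h2
    nlinarith
  rcases le_max_iff.1 key with h | h
  · exact h
  · exfalso
    have : 0 < (p.Φ : ℝ) / 44 := by positivity
    linarith

/-- the lower bound in terms of `L = log (n ^ 2)`, once `n` is large -/
theorem rand_bound_of_large (n : ℕ) (hn : 1 ≤ n) (L : ℝ) (hL : L = Real.log ((n : ℝ) ^ 2))
    (h1 : 1 ≤ Real.log L) (h2 : 2 ≤ L) (h3 : 48 * Real.log L ≤ L)
    (D : RandAlg n) {ρ : ℝ} (hρ : D.Competitive ρ) :
    1 / 110000 * (L / Real.log L) ^ 2 ≤ ρ := by
  have hL0 : 0 < L := by linarith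
  set LL := Real.log L with hLL
  have hLL0 : 0 < LL := by linarith
  have hn0 : (0 : ℝ) < n := by exact_mod_cast hn
  set x : ℝ := L / (24 * LL) with hx
  have hx2 : 2 ≤ x := by
    rw [hx, le_div_iff₀ (by positivity)]
    linarith
  set h : ℕ := ⌊x⌋₊ with hh
  have hh1 : (h : ℝ) ≤ x := Nat.floor_le (by linarith)
  have hh2 : x < h + 1 := Nat.lt_floor_add_one x
  have hh3 : x / 2 ≤ h := by linarith
  have hh4 : 2 ≤ h := Nat.le_floor (by exact_mod_cast hx2)
  have hh5 : (2 : ℝ) ≤ h := by exact_mod_cast hh4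
  have hxL : x ≤ L / 24 := by
    rw [hx, div_le_div_iff₀ (by positivity) (by norm_num)]
    nlinarith
  have hhL : (h : ℝ) ≤ L / 24 := hh1.trans hxL
  set Q : ℕ := 20 * (h * h) ^ 2 with hQ
  have hQr : (Q : ℝ) = 20 * (h : ℝ) ^ 4 := by
    rw [hQ]
    push_cast
    ring
  have hQpos : (0 : ℝ) < Q := by
    rw [hQr]
    positivity
  set K : ℕ := ⌈(Q : ℝ) * (6 * L)⌉₊ with hK
  have hK1 : (Q : ℝ) * (6 * L) ≤ K := Nat.le_ceil _
  have hK2 : (K : ℝ) < (Q : ℝ) * (6 * L) + 1 := Nat.ceil_lt_add_one (by positivity)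
  have hKpos : 1 ≤ K := by
    rw [hK]
    exact Nat.one_le_ceil_iff.2 (by positivity)
  have hlogL : 3 * L = Real.log ((n : ℝ) ^ 6) := by
    rw [hL]
    have : (n : ℝ) ^ 6 = ((n : ℝ) ^ 2) ^ 3 := by ring
    rw [this, Real.log_pow]
    norm_num
  -- the bound on the failure probability
  have hKge : 20 * (n : ℝ) ^ 6 * (h * h) * (1 - 1 / (Q : ℝ)) ^ K ≤ 1 := by
    have e1 : (1 - 1 / (Q : ℝ)) ≤ Real.exp (-(1 / (Q : ℝ))) := by
      have := Real.add_one_le_exp (-(1 / (Q : ℝ)))
      linarith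
    have e0 : 0 ≤ 1 - 1 / (Q : ℝ) := by
      rw [sub_nonneg, div_le_one hQpos, hQr]
      have : (1 : ℝ) ≤ (h : ℝ) ^ 4 := one_le_pow₀ (by linarith)
      linarith
    have e2 : (1 - 1 / (Q : ℝ)) ^ K ≤ Real.exp (-(6 * L)) := by
      calc (1 - 1 / (Q : ℝ)) ^ K ≤ Real.exp (-(1 / (Q : ℝ))) ^ K := by gcongr
        _ = Real.exp (K * (-(1 / (Q : ℝ)))) := (Real.exp_nat_mul _ _).symm
        _ ≤ Real.exp (-(6 * L)) := by
            apply Real.exp_le_exp.2
            have : 6 * L ≤ K * (1 / (Q : ℝ)) := by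
              rw [mul_one_div, le_div_iff₀ hQpos]
              linarith
            linarith
    have e3 : (n : ℝ) ^ 6 = Real.exp (3 * L) := by
      rw [hlogL, Real.exp_log (by positivity)]
    have e4 : 20 * ((h : ℝ) * h) ≤ Real.exp (3 * L) := by
      have f1 : L ≤ Real.exp L := by
        have := Real.add_one_le_exp L
        linarith
      have f2 : 20 * ((h : ℝ) * h) ≤ L ^ 2 := by
        have : (h : ℝ) * h ≤ (L / 24) * (L / 24) := by gcongr
        nlinarith [sq_nonneg L]
      calc 20 * ((h : ℝ) * h) ≤ L ^ 2 := f2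
        _ ≤ Real.exp L ^ 2 := by gcongr
        _ = Real.exp (2 * L) := by
            rw [← Real.exp_nat_mul]
            norm_num
        _ ≤ Real.exp (3 * L) := Real.exp_le_exp.2 (by linarith)
    calc 20 * (n : ℝ) ^ 6 * (h * h) * (1 - 1 / (Q : ℝ)) ^ K
        = (20 * ((h : ℝ) * h)) * (n : ℝ) ^ 6 * (1 - 1 / (Q : ℝ)) ^ K := by ring
      _ ≤ Real.exp (3 * L) * Real.exp (3 * L) * Real.exp (-(6 * L)) := by
          rw [e3]
          gcongr
      _ = 1 := by
          rw [← Real.exp_add, ← Real.exp_add]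
          have : 3 * L + 3 * L + -(6 * L) = 0 := by ring
          rw [this, Real.exp_zero]
  set k : ℕ := 2 * (h * h) ^ 3 * K with hk
  have hkL : (k : ℝ) ≤ L ^ 11 := by
    have e1 : (k : ℝ) = 2 * (h : ℝ) ^ 6 * K := by
      rw [hk]
      push_cast
      ring
    have e2 : (1 : ℝ) ≤ (h : ℝ) ^ 4 * L := by
      have : (1 : ℝ) ≤ (h : ℝ) ^ 4 := one_le_pow₀ (by linarith)
      nlinarith
    have e3 : (K : ℝ) ≤ 121 * ((h : ℝ) ^ 4 * L) := by
      rw [hQr] at hK2
      nlinarith
    have e4 : (h : ℝ) ^ 10 ≤ (L / 24) ^ 10 := by gcongr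
    calc (k : ℝ) = 2 * (h : ℝ) ^ 6 * K := e1
      _ ≤ 2 * (h : ℝ) ^ 6 * (121 * ((h : ℝ) ^ 4 * L)) := by gcongr
      _ = 242 * ((h : ℝ) ^ 10 * L) := by ring
      _ ≤ 242 * ((L / 24) ^ 10 * L) := by gcongr
      _ = 242 / 24 ^ 10 * L ^ 11 := by ring
      _ ≤ 1 * L ^ 11 := by
          apply mul_le_mul_of_nonneg_right _ (by positivity)
          norm_num
      _ = L ^ 11 := one_mul _
  have hkh : k ^ h ≤ n := by
    have e1 : ((k : ℝ)) ^ h ≤ (L ^ 11) ^ h := by gcongr
    have e2 : (L ^ 11) ^ h = Real.exp (LL * (11 * h)) := by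
      rw [← pow_mul]
      have : L = Real.exp LL := by rw [hLL, Real.exp_log hL0]
      rw [this, ← Real.exp_nat_mul]
      congr 1
      push_cast
      ring
    have e3 : LL * (11 * h) ≤ Real.log n := by
      have e4 : Real.log ((n : ℝ) ^ 2) = 2 * Real.log n := by
        rw [Real.log_pow]
        norm_num
      have e5 : LL * x = L / 24 := by
        rw [hx]
        field_simp
      have e6 : LL * h ≤ LL * x := by gcongr
      have e7 : L = 2 * Real.log n := by rw [hL, e4]
      nlinarith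
    have e4 : ((k : ℝ)) ^ h ≤ n := by
      calc ((k : ℝ)) ^ h ≤ Real.exp (LL * (11 * h)) := by rw [← e2]; exact e1
        _ ≤ Real.exp (Real.log n) := Real.exp_le_exp.2 e3
        _ = n := Real.exp_log hn0
    exact_mod_cast e4
  let p : Par n :=
    { h := h, k := k, Q := Q, K := K
      n_pos := hn, h_pos := by omega, K_pos := hKpos, k_pow := hkh
      Q_ge := le_rfl, k_ge := le_rfl, K_ge := hKge }
  have hb := rand_bound p D hρ
  refine le_trans ?_ hb
  have hΦ : (p.Φ : ℝ) = (h : ℝ) * h := by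
    unfold Par.Φ
    push_cast
    rfl
  rw [hΦ]
  have e1 : L / LL = 24 * x := by
    rw [hx]
    field_simp
  rw [e1]
  nlinarith

/-- a deterministic algorithm is a randomized one -/
noncomputable def detAlg (A : Inst n → Sched) (hA : Online A) : RandAlg n where
  Ω := Unit
  ms := ⊤
  μ := @Measure.dirac Unit ⊤ ()
  prob := @Measure.dirac.isProbabilityMeasure Unit ⊤ ()
  alg := fun _ => A
  online := fun _ => hA
  meas := fun _ => @measurable_const _ _ _ ⊤ _

lemma detAlg_expected (A : Inst n → Sched) (hA : Online A) (I : Inst n) :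
    (detAlg A hA).expected I = ENNReal.ofReal (I.makespan (A I)) := by
  unfold RandAlg.expected detAlg
  simp

lemma detAlg_competitive {A : Inst n → Sched} (hA : Online A) {ρ : ℝ}
    (hρ : Pool.Agent.Helper472.Mesh.Competitive A ρ) : (detAlg A hA).Competitive ρ := by
  intro I
  rw [detAlg_expected]
  exact ENNReal.ofReal_le_ofReal (hρ I)

/-- The main lower bound. -/
theorem rand_main : ∃ c : ℝ, 0 < c ∧ ∀ᶠ n : ℕ in Filter.atTop,
    c * (Real.log ((n : ℝ) ^ 2) / Real.log (Real.log ((n : ℝ) ^ 2))) ^ 2 ≤ Rrand n := by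
  refine ⟨1 / 110000, by norm_num, ?_⟩
  filter_upwards [eventually_large] with n hn
  obtain ⟨h1, h2, h3, h4⟩ := hn
  unfold Rrand
  apply le_csInf
  · exact ⟨_, _, detAlg_competitive seq_online seq_competitive⟩
  · rintro ρ ⟨D, hρ⟩
    exact rand_bound_of_large n h1 _ rfl h2 h3 h4 D hρ

end Pool.Agent.Y649.Mesh
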