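import Pool.Agent.Y649.Mesh.Bad

/-!
A round (one block of each shape) takes time at least `1`, provided that all blocks are good.
-/

set_option autoImplicit false

open Classical

namespace Pool.Agent.Y649.Mesh

open Pool.Agent.Helper472.Mesh

variable {n : ℕ} (p : Par n)

/-- area of a set of jobs -/
noncomputable def ar (S : Sched) (X : Finset ℕ) : ℝ :=
  ∑ j ∈ X, ((S.rect j).w : ℝ) * (S.rect j).h

/-- short jobs of block `β` -/
noncomputable def shorts (τ : ℕ → Prop) (β : ℕ) : Finset ℕ :=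
  (Finset.Ico (p.off β) (p.off (β + 1))).filter (fun j => ¬ τ j)

lemma ar_nonneg (S : Sched) (X : Finset ℕ) : 0 ≤ ar S X :=
  Finset.sum_nonneg (fun _ _ => by positivity)

section one

variable {τ : ℕ → Prop} {S : Sched} {B : ℕ}

lemma block_work (hS : (inst p τ B).Feasible S) {β : ℕ} (hβ : β < B)
    (hfast : R p τ S (β + 1) < R p τ S β + 1) (hne : (shorts p τ β).Nonempty) :
    ∃ m ∈ Finset.Ico (p.off β) (p.off (β + 1)), S.start m < R p τ S (β + 1) ∧
      ((shorts p τ β).card : ℝ) * (p.lam * ((p.a (p.sh β) : ℝ) * p.b (p.sh β))) ≤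
        ar S (Fr p S β m) * (R p τ S (β + 1) - R p τ S β) := by
  set M := (Finset.Ico (p.off β) (p.off (β + 1))).filter (fun m => S.start m < R p τ S (β + 1))
    with hM
  have hNB : p.off (β + 1) ≤ p.off B := p.off_mono hβ
  have hltN : ∀ j ∈ Finset.Ico (p.off β) (p.off (β + 1)), j < p.off B := fun j hj =>
    lt_of_lt_of_le (Finset.mem_Ico.1 hj).2 hNB
  have hfin : ∀ j ∈ shorts p τ β, S.start j < sf p S j ∧ sf p S j = fin p τ S j ∧
      fin p τ S j ≤ R p τ S (β + 1) ∧ R p τ S β ≤ S.start j := by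
    intro j hj
    obtain ⟨h1, h2⟩ := Finset.mem_filter.1 hj
    exact ⟨start_lt_sf p hS (hltN j h1), (fin_short p h2).symm,
      fin_le_R p (Finset.mem_Ico.1 h1).2 h2, start_ge p hS (hltN j h1) (Finset.mem_Ico.1 h1).1⟩
  have hMne : M.Nonempty := by
    obtain ⟨j, hj⟩ := hne
    obtain ⟨h1, h2, h3, h4⟩ := hfin j hj
    exact ⟨j, Finset.mem_filter.2 ⟨(Finset.mem_filter.1 hj).1, by linarith⟩⟩
  obtain ⟨m, hm, hmax⟩ := Finset.exists_max_image M (fun m => ar S (Fr p S β m)) hMne
  obtain ⟨hm1, hm2⟩ := Finset.mem_filter.1 hm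
  refine ⟨m, hm1, hm2, ?_⟩
  have h1 := work_le (shorts p τ β) (fun j => ((S.rect j).w : ℝ) * (S.rect j).h) S.start
    (fin p τ S) (R p τ S β) (R p τ S (β + 1)) (ar S (Fr p S β m)) (fun j _ => by positivity)
    (fun j hj => (hfin j hj).2.2.2)
    (fun j hj => by
      obtain ⟨h1, h2, h3, h4⟩ := hfin j hj
      linarith)
    (fun j hj => (hfin j hj).2.2.1) (R_mono p τ S (Nat.le_succ β)) (ar_nonneg S _) (by
      intro t ht1 ht2
      set X := (shorts p τ β).filter (fun j => S.start j < t ∧ t < fin p τ S j) with hX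
      rcases X.eq_empty_or_nonempty with h0 | h0
      · rw [h0, Finset.sum_empty]
        exact ar_nonneg S _
      · obtain ⟨m', hm', hmax'⟩ := Finset.exists_max_image X S.start h0
        obtain ⟨hm1', hm2', hm3'⟩ := Finset.mem_filter.1 hm'
        have hmM : m' ∈ M := Finset.mem_filter.2 ⟨(Finset.mem_filter.1 hm1').1, by linarith⟩
        refine le_trans ?_ (hmax m' hmM)
        apply Finset.sum_le_sum_of_subset_of_nonneg
        · intro j hj
          obtain ⟨h5, h6, h7⟩ := Finset.mem_filter.1 hj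
          obtain ⟨h1, h2, h3, h4⟩ := hfin j h5
          refine Finset.mem_filter.2 ⟨(Finset.mem_filter.1 h5).1, hmax' j hj, ?_, ?_⟩
          · rw [h2]; linarith
          · rw [h2]; linarith
        · intro j _ _
          positivity)
  refine le_trans (le_of_eq ?_) h1
  rw [← nsmul_eq_mul, ← Finset.sum_const]
  apply Finset.sum_congr rfl
  intro j hj
  obtain ⟨h3, h4⟩ := Finset.mem_filter.1 hj
  have hw := w_pos' p hS (hltN j h3)
  have hh := h_pos' p hS (hltN j h3)
  rw [fin_short p h4]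
  unfold sf
  rw [p.blk_eq.2 h3]
  field_simp
  ring

lemma ar_eq_card (hS : (inst p τ B).Feasible S) {β m : ℕ} (hβ : β < B) :
    (((Fr p S β m).biUnion (fun j => (S.rect j).cells)).card : ℝ) = ar S (Fr p S β m) := by
  have hNB : p.off (β + 1) ≤ p.off B := p.off_mono hβ
  apply run_card hS (Fr p S β m) _ (S.start m)
  · intro j hj
    exact (Finset.mem_filter.1 hj).2.1
  · intro j hj
    rw [finish_eq]
    exact lt_of_lt_of_le (Finset.mem_filter.1 hj).2.2.1 (sf_le_fin p τ S j)
  · intro j hj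
    exact lt_of_lt_of_le (Finset.mem_Ico.1 (Finset.mem_filter.1 hj).1).2 hNB

lemma inter_w (Z Y : Rect) : (Z.cells ∩ Y.cells).card ≤ Y.w * Z.h := by
  unfold Rect.cells
  rw [Finset.product_inter_product, Finset.card_product]
  apply Nat.mul_le_mul
  · refine (Finset.card_le_card Finset.inter_subset_right).trans ?_
    rw [Nat.card_Ico]
    omega
  · refine (Finset.card_le_card Finset.inter_subset_left).trans ?_
    rw [Nat.card_Ico]
    omega

lemma inter_h (Z Y : Rect) : (Z.cells ∩ Y.cells).card ≤ Z.w * Y.h := by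
  unfold Rect.cells
  rw [Finset.product_inter_product, Finset.card_product]
  apply Nat.mul_le_mul
  · refine (Finset.card_le_card Finset.inter_subset_left).trans ?_
    rw [Nat.card_Ico]
    omega
  · refine (Finset.card_le_card Finset.inter_subset_right).trans ?_
    rw [Nat.card_Ico]
    omega

/-- jobs that are not shrunk too much -/
lemma shrink (hS : (inst p τ B).Feasible S) {β m j : ℕ} (hβ : β < B) (hj : j ∈ Fr p S β m) :
    p.lam * p.a (p.sh β) ≤ (S.rect j).w ∧ p.lam * p.b (p.sh β) ≤ (S.rect j).h := by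
  obtain ⟨h1, h2, h3, h4⟩ := Finset.mem_filter.1 hj
  have hjN : j < p.off B := lt_of_lt_of_le (Finset.mem_Ico.1 h1).2 (p.off_mono hβ)
  have hw := w_pos' p hS hjN
  have hh := h_pos' p hS hjN
  have hblk := p.blk_eq.2 h1
  have hwa : ((S.rect j).w : ℝ) ≤ p.a (p.sh β) := by
    have := hS.w_le j hjN
    have e : (inst p τ B).a j = p.a (p.sh (p.blk j)) := rfl
    rw [e, hblk] at this
    exact_mod_cast this
  have hhb : ((S.rect j).h : ℝ) ≤ p.b (p.sh β) := by
    have := hS.h_le j hjN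
    have e : (inst p τ B).b j = p.b (p.sh (p.blk j)) := rfl
    rw [e, hblk] at this
    exact_mod_cast this
  have hlam := p.lam_pos
  have ha := p.a_pos' (p.sh β)
  have hb := p.b_pos' (p.sh β)
  have h5 : p.lam * ((p.a (p.sh β) : ℝ) * p.b (p.sh β)) < ((S.rect j).w : ℝ) * (S.rect j).h := by
    unfold sf at h4
    rw [hblk] at h4
    have h6 : p.lam * ((p.a (p.sh β) : ℝ) * p.b (p.sh β)) /
      (((S.rect j).w : ℝ) * (S.rect j).h) < 1 := by linarith
    rwa [div_lt_one (by positivity)] at h6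
  constructor
  · by_contra hcon
    push Not at hcon
    nlinarith [mul_lt_mul_of_pos_right hcon hb, mul_le_mul_of_nonneg_left hhb hw.le]
  · by_contra hcon
    push Not at hcon
    nlinarith [mul_lt_mul_of_pos_right hcon ha, mul_le_mul_of_nonneg_right hwa hh.le]

end one

section pair

variable {τ : ℕ → Prop} {A : Inst n → Sched} {B : ℕ}

/-- the relative overlap -/
noncomputable def ov : ℝ := p.K / (p.lam * p.k)

lemma ov_nonneg : 0 ≤ ov p := by
  have := p.lam_pos
  unfold ov
  positivity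

lemma ov_le : (p.Φ : ℝ) * ov p ≤ 1 / 2 := by
  have h1 : 2 * (p.Φ : ℝ) ^ 3 * p.K ≤ p.k := by
    have := p.k_ge
    unfold Par.Φ
    exact_mod_cast this
  have h2 := p.Φ_pos'
  have h3 : (0 : ℝ) < p.k := by exact_mod_cast p.k_pos
  unfold ov Par.lam
  have e : (p.Φ : ℝ) * (p.K / (1 / (p.Φ : ℝ) ^ 2 * p.k)) = (p.Φ : ℝ) ^ 3 * p.K / p.k := by
    field_simp
  rw [e, div_le_iff₀ h3]
  linarith

lemma pair_one (hA : Online A) {θ : ℕ} (hfast : R p τ (A (inst p τ B)) (θ + p.Φ) <
      R p τ (A (inst p τ B)) θ + 1) {β β' m m' j' : ℕ} (h1 : θ ≤ β) (h2 : β < β')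
    (h3 : β' < θ + p.Φ) (hB : θ + p.Φ ≤ B) (hsh : p.sh β < p.sh β')
    (hm : m ∈ Finset.Ico (p.off β) (p.off (β + 1)))
    (hmR : (A (inst p τ B)).start m < R p τ (A (inst p τ B)) (β + 1))
    (hm' : m' ∈ Finset.Ico (p.off β') (p.off (β' + 1)))
    (hmR' : (A (inst p τ B)).start m' < R p τ (A (inst p τ B)) (β' + 1))
    (hgood : Good p A τ β) (hj' : j' ∈ Fr p (A (inst p τ B)) β' m') :
    ((((A (inst p τ B)).rect j').cells ∩
      (Fr p (A (inst p τ B)) β m).biUnion (fun j => ((A (inst p τ B)).rect j).cells)).card : ℝ) ≤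
      ov p * ((((A (inst p τ B)).rect j').w : ℝ) * ((A (inst p τ B)).rect j').h) := by
  set S := A (inst p τ B) with hS
  have hF : (inst p τ B).Feasible S := hA.feasible _
  set Z := S.rect j' with hZ
  have hβB : β < B := by omega
  have hβB' : β' < B := by omega
  have hjI' := (Finset.mem_filter.1 hj').1
  have hjN' : j' < p.off B := lt_of_lt_of_le (Finset.mem_Ico.1 hjI').2 (p.off_mono hβB')
  have hmN : m < p.off B := lt_of_lt_of_le (Finset.mem_Ico.1 hm).2 (p.off_mono hβB)
  have hmN' : m' < p.off B := lt_of_lt_of_le (Finset.mem_Ico.1 hm').2 (p.off_mono hβB')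
  have hZx : Z.x + Z.w ≤ n := hF.x_le j' hjN'
  have hZy : Z.y + Z.h ≤ n := hF.y_le j' hjN'
  have hZw : 1 ≤ Z.w := hF.w_pos j' hjN'
  have hZh : 1 ≤ Z.h := hF.h_pos j' hjN'
  -- few fresh jobs meet `Z`
  have hfew : (FrQ p S β m Z).card < p.K := by
    by_contra hcon
    push Not at hcon
    have hRpos : 0 < R p τ S (β + 1) := lt_of_le_of_lt (hF.start_nonneg m hmN) hmR
    have hag := agree_of_same hA (trunc_same p (S := S) (τ := τ) (B := B) (B' := β + 1) hβB hRpos)
      (N := p.off (β + 1)) (p.off_mono hβB) le_rfl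
    have hQ := FrQ_congr p hag le_rfl hm hmR Z
    obtain ⟨l, hl, hτl⟩ := hgood m hm Z hZx hZy hZw hZh (by rw [hQ]; exact hcon)
    rw [hQ] at hl
    obtain ⟨hlF, hlZ⟩ := Finset.mem_filter.1 hl
    obtain ⟨g1, g2, g3, g4⟩ := Finset.mem_filter.1 hlF
    obtain ⟨f1, f2, f3, f4⟩ := Finset.mem_filter.1 hj'
    have hlN : l < p.off B := lt_of_lt_of_le (Finset.mem_Ico.1 g1).2 (p.off_mono hβB)
    apply hlZ
    have hlj : l ≠ j' := by
      rintro rfl
      have e1 := (Finset.mem_Ico.1 g1).2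
      have e2 := (Finset.mem_Ico.1 f1).1
      have e3 := p.off_mono (show β + 1 ≤ β' from h2)
      omega
    have e1 : R p τ S (β + 1) ≤ R p τ S β' := R_mono p τ S h2
    have e2 : R p τ S β' ≤ S.start m' := start_ge p hF hmN' (Finset.mem_Ico.1 hm').1
    have e3 : R p τ S θ ≤ S.start l := by
      refine (R_mono p τ S h1).trans ?_
      exact start_ge p hF hlN (Finset.mem_Ico.1 g1).1
    have e4 : R p τ S (β' + 1) ≤ R p τ S (θ + p.Φ) := R_mono p τ S (by omega)
    have e5 : S.start l + 1 ≤ fin p τ S l := by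
      have hw := w_pos' p hF hlN
      have hh := h_pos' p hF hlN
      unfold fin Inst.finish inst
      simp only [hτl, if_true]
      have hwa : ((S.rect l).w : ℝ) ≤ p.a (p.sh (p.blk l)) := by
        have := hF.w_le l hlN
        exact_mod_cast this
      have hhb : ((S.rect l).h : ℝ) ≤ p.b (p.sh (p.blk l)) := by
        have := hF.h_le l hlN
        exact_mod_cast this
      have : 1 ≤ 1 * ((p.a (p.sh (p.blk l)) : ℝ) * p.b (p.sh (p.blk l))) /
          (((S.rect l).w : ℝ) * (S.rect l).h) := by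
        rw [one_mul, le_div_iff₀ (by positivity), one_mul]
        exact mul_le_mul hwa hhb hh.le (by positivity)
      linarith
    have := hF.excl l hlN j' hjN' hlj (S.start m') (by linarith)
      (by rw [finish_eq]; linarith) f2
      (by rw [finish_eq]; exact lt_of_lt_of_le f3 (sf_le_fin p τ S j'))
    exact this.symm
  obtain ⟨hs1, hs2⟩ := shrink p hF hβB' hj'
  have hlam := p.lam_pos
  have hk : (0 : ℝ) < p.k := by exact_mod_cast p.k_pos
  have hZw' : (0 : ℝ) < Z.w := by exact_mod_cast hZw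
  have hZh' : (0 : ℝ) < Z.h := by exact_mod_cast hZh
  have hcard : ((FrQ p S β m Z).card : ℝ) ≤ p.K := by exact_mod_cast hfew.le
  have key : ∀ c : ℝ, 0 ≤ c → (∀ j ∈ Fr p S β m, ((Z.cells ∩ (S.rect j).cells).card : ℝ) ≤ c) →
      ((Z.cells ∩ (Fr p S β m).biUnion (fun j => (S.rect j).cells)).card : ℝ) ≤ p.K * c := by
    intro c hc h
    refine (inter_biUnion_card h).trans ?_
    exact mul_le_mul_of_nonneg_right hcard hc
  rcases p.grow hsh with hg | ⟨hg1, hg2⟩
  · refine (key ((p.a (p.sh β) : ℝ) * Z.h) (by positivity) ?_).trans ?_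
    · intro j hj
      have hjN : j < p.off B := lt_of_lt_of_le
        (Finset.mem_Ico.1 (Finset.mem_filter.1 hj).1).2 (p.off_mono hβB)
      have h5 := inter_w Z (S.rect j)
      have h6 : (S.rect j).w ≤ p.a (p.sh β) := by
        have := hF.w_le j hjN
        have e : (inst p τ B).a j = p.a (p.sh (p.blk j)) := rfl
        rw [e, p.blk_eq.2 (Finset.mem_filter.1 hj).1] at this
        exact this
      have h7 : (Z.cells ∩ (S.rect j).cells).card ≤ p.a (p.sh β) * Z.h :=
        h5.trans (Nat.mul_le_mul_right _ h6)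
      exact_mod_cast h7
    · have h8 : (p.k : ℝ) * p.a (p.sh β) ≤ p.a (p.sh β') := by exact_mod_cast hg
      have h9 : (p.a (p.sh β) : ℝ) * (p.lam * p.k) ≤ Z.w := by
        calc (p.a (p.sh β) : ℝ) * (p.lam * p.k) = p.lam * (p.k * p.a (p.sh β)) := by ring
          _ ≤ p.lam * p.a (p.sh β') := by gcongr
          _ ≤ Z.w := hs1
      unfold ov
      rw [div_mul_eq_mul_div, le_div_iff₀ (by positivity)]
      calc (p.K : ℝ) * ((p.a (p.sh β) : ℝ) * Z.h) * (p.lam * p.k) =
            p.K * ((p.a (p.sh β) : ℝ) * (p.lam * p.k) * Z.h) := by ring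
        _ ≤ p.K * ((Z.w : ℝ) * Z.h) := by gcongr
  · refine (key ((Z.w : ℝ) * p.b (p.sh β)) (by positivity) ?_).trans ?_
    · intro j hj
      have hjN : j < p.off B := lt_of_lt_of_le
        (Finset.mem_Ico.1 (Finset.mem_filter.1 hj).1).2 (p.off_mono hβB)
      have h5 := inter_h Z (S.rect j)
      have h6 : (S.rect j).h ≤ p.b (p.sh β) := by
        have := hF.h_le j hjN
        have e : (inst p τ B).b j = p.b (p.sh (p.blk j)) := rfl
        rw [e, p.blk_eq.2 (Finset.mem_filter.1 hj).1] at this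
        exact this
      have h7 : (Z.cells ∩ (S.rect j).cells).card ≤ Z.w * p.b (p.sh β) :=
        h5.trans (Nat.mul_le_mul_left _ h6)
      exact_mod_cast h7
    · have h8 : (p.k : ℝ) * p.b (p.sh β) ≤ p.b (p.sh β') := by exact_mod_cast hg2
      have h9 : (p.b (p.sh β) : ℝ) * (p.lam * p.k) ≤ Z.h := by
        calc (p.b (p.sh β) : ℝ) * (p.lam * p.k) = p.lam * (p.k * p.b (p.sh β)) := by ring
          _ ≤ p.lam * p.b (p.sh β') := by gcongr
          _ ≤ Z.h := hs2
      unfold ov
      rw [div_mul_eq_mul_div, le_div_iff₀ (by positivity)]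
      calc (p.K : ℝ) * ((Z.w : ℝ) * p.b (p.sh β)) * (p.lam * p.k) =
            p.K * (Z.w * ((p.b (p.sh β) : ℝ) * (p.lam * p.k))) := by ring
        _ ≤ p.K * ((Z.w : ℝ) * Z.h) := by gcongr

lemma inter_biUnion_le {X : Finset ℕ} {f : ℕ → Finset (ℕ × ℕ)} {V : Finset (ℕ × ℕ)} :
    (((X.biUnion f) ∩ V).card : ℝ) ≤ ∑ j ∈ X, ((f j ∩ V).card : ℝ) := by
  have h1 : (X.biUnion f) ∩ V = X.biUnion (fun j => f j ∩ V) := by
    ext x
    simp only [Finset.mem_inter, Finset.mem_biUnion]
    constructor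
    · rintro ⟨⟨j, hj, hx⟩, hV⟩
      exact ⟨j, hj, hx, hV⟩
    · rintro ⟨j, hj, hx, hV⟩
      exact ⟨⟨j, hj, hx⟩, hV⟩
  rw [h1]
  exact_mod_cast Finset.card_biUnion_le

end pair

end Pool.Agent.Y649.Mesh
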