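import Pool.Agent.Y649.Mesh.Round

/-!
A round takes time at least `1`: conclusion.
-/

set_option autoImplicit false

open Classical

namespace Pool.Agent.Y649.Mesh

open Pool.Agent.Helper472.Mesh

variable {n : ℕ} (p : Par n)

lemma union_card (Φ : ℕ) (ε : ℝ) (hε : 0 ≤ ε) (U : ℕ → Finset (ℕ × ℕ)) (C : ℕ → ℝ)
    (hC : ∀ i < Φ, ((U i).card : ℝ) = C i)
    (hU : ∀ i i', i < i' → i' < Φ → ((U i' ∩ U i).card : ℝ) ≤ ε * C i') :
    ∀ i ≤ Φ, (1 - Φ * ε) * ∑ i' ∈ Finset.range i, C i' ≤
      (((Finset.range i).biUnion U).card : ℝ) := by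
  intro i
  induction i with
  | zero => intro _; simp
  | succ i ih =>
    intro hi
    have ih' := ih (by omega)
    have h1 : (Finset.range (i + 1)).biUnion U = U i ∪ (Finset.range i).biUnion U := by
      rw [Finset.range_add_one, Finset.biUnion_insert]
    have h2 : ((U i ∪ (Finset.range i).biUnion U).card : ℝ) +
        ((U i ∩ (Finset.range i).biUnion U).card : ℝ) =
        (U i).card + (((Finset.range i).biUnion U).card : ℝ) := by
      exact_mod_cast Finset.card_union_add_card_inter _ _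
    have h3 : ((U i ∩ (Finset.range i).biUnion U).card : ℝ) ≤
        ∑ i' ∈ Finset.range i, ((U i ∩ U i').card : ℝ) := by
      have e : U i ∩ (Finset.range i).biUnion U = (Finset.range i).biUnion (fun i' => U i ∩ U i') := by
        ext x
        simp only [Finset.mem_inter, Finset.mem_biUnion]
        constructor
        · rintro ⟨hx, j, hj, hV⟩
          exact ⟨j, hj, hx, hV⟩
        · rintro ⟨j, hj, hx, hV⟩
          exact ⟨hx, j, hj, hV⟩
      rw [e]
      exact_mod_cast Finset.card_biUnion_le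
    have hCi : 0 ≤ C i := by
      rw [← hC i (by omega)]
      positivity
    have h4 : ∑ i' ∈ Finset.range i, ((U i ∩ U i').card : ℝ) ≤ Φ * (ε * C i) := by
      calc ∑ i' ∈ Finset.range i, ((U i ∩ U i').card : ℝ) ≤ ∑ i' ∈ Finset.range i, ε * C i :=
            Finset.sum_le_sum (fun i' hi' => hU i' i (Finset.mem_range.1 hi') (by omega))
        _ = i * (ε * C i) := by rw [Finset.sum_const, Finset.card_range, nsmul_eq_mul]
        _ ≤ Φ * (ε * C i) := by
            apply mul_le_mul_of_nonneg_right _ (by positivity)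
            exact_mod_cast (by omega : i ≤ Φ)
    rw [h1, Finset.sum_range_succ]
    have h5 := hC i (by omega)
    nlinarith

lemma sum_telescope (f : ℕ → ℝ) (θ m : ℕ) :
    ∑ i ∈ Finset.range m, (f (θ + i + 1) - f (θ + i)) = f (θ + m) - f θ := by
  induction m with
  | zero => simp
  | succ m ih =>
    rw [Finset.sum_range_succ, ih]
    ring_nf

variable {τ : ℕ → Prop} {A : Inst n → Sched} {B : ℕ}

/-- A round takes time at least `1` if all its blocks are good. -/
theorem round_ge (hA : Online A) {r : ℕ} (hB : r * p.Φ + p.Φ ≤ B)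
    (hgood : ∀ i < p.Φ, Good p A τ (r * p.Φ + i))
    (hshort : ∀ i < p.Φ, (p.Nb (p.sh (r * p.Φ + i)) : ℝ) ≤ 2 * (shorts p τ (r * p.Φ + i)).card) :
    1 ≤ R p τ (A (inst p τ B)) (r * p.Φ + p.Φ) - R p τ (A (inst p τ B)) (r * p.Φ) := by
  by_contra hcon
  push Not at hcon
  set S := A (inst p τ B) with hS
  set θ := r * p.Φ with hθ
  have hF : (inst p τ B).Feasible S := hA.feasible _
  have hfast : R p τ S (θ + p.Φ) < R p τ S θ + 1 := by linarith
  have hsh : ∀ i < p.Φ, p.sh (θ + i) = i := by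
    intro i hi
    unfold Par.sh
    rw [hθ, Nat.mul_comm, Nat.mul_add_mod, Nat.mod_eq_of_lt hi]
  have hn : (0 : ℝ) < n := by exact_mod_cast p.n_pos
  have hΦ := p.Φ_pos'
  have hlam := p.lam_pos
  -- work in the blocks
  have hW : ∀ i < p.Φ, ∃ m ∈ Finset.Ico (p.off (θ + i)) (p.off (θ + i + 1)),
      S.start m < R p τ S (θ + i + 1) ∧
      2 * (n : ℝ) ^ 2 * p.lam ≤ ar S (Fr p S (θ + i) m) * (R p τ S (θ + i + 1) - R p τ S (θ + i)) := by
    intro i hi
    have h1 : R p τ S (θ + i + 1) < R p τ S (θ + i) + 1 := by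
      have e1 := R_mono p τ S (show θ + i + 1 ≤ θ + p.Φ by omega)
      have e2 := R_mono p τ S (show θ ≤ θ + i by omega)
      linarith
    have h2 : (shorts p τ (θ + i)).Nonempty := by
      rw [← Finset.card_pos]
      have e1 := hshort i hi
      have e2 := p.Nb_pos (p.sh (θ + i))
      have e3 : (1 : ℝ) ≤ p.Nb (p.sh (θ + i)) := by exact_mod_cast e2
      have e4 : (0 : ℝ) < ((shorts p τ (θ + i)).card : ℝ) := by linarith
      exact_mod_cast e4
    obtain ⟨m, hm1, hm2, hm3⟩ := block_work p hF (show θ + i < B by omega) h1 h2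
    refine ⟨m, hm1, hm2, le_trans ?_ hm3⟩
    have e1 := hshort i hi
    have e2 := p.Nb_ge (p.sh (θ + i))
    have ha := p.a_pos' (p.sh (θ + i))
    have hb := p.b_pos' (p.sh (θ + i))
    rw [div_le_iff₀ (by positivity)] at e2
    have e3 : 4 * (n : ℝ) ^ 2 ≤ 2 * ((shorts p τ (θ + i)).card : ℝ) *
        ((p.a (p.sh (θ + i)) : ℝ) * p.b (p.sh (θ + i))) :=
      e2.trans (mul_le_mul_of_nonneg_right e1 (by positivity))
    nlinarith
  choose! m hm1 hm2 hm3 using hW
  set C : ℕ → ℝ := fun i => ar S (Fr p S (θ + i) (m i)) with hC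
  set U : ℕ → Finset (ℕ × ℕ) := fun i =>
    (Fr p S (θ + i) (m i)).biUnion (fun j => (S.rect j).cells) with hU
  have hUC : ∀ i < p.Φ, ((U i).card : ℝ) = C i := fun i hi =>
    ar_eq_card p hF (show θ + i < B by omega)
  have hUU : ∀ i i', i < i' → i' < p.Φ → ((U i' ∩ U i).card : ℝ) ≤ ov p * C i' := by
    intro i i' h1 h2
    refine inter_biUnion_le.trans ?_
    simp only [hC, ar]
    rw [Finset.mul_sum]
    apply Finset.sum_le_sum
    intro j hj
    exact pair_one p hA hfast (show θ ≤ θ + i by omega) (show θ + i < θ + i' by omega)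
      (by omega) hB (by rw [hsh i (by omega), hsh i' h2]; exact h1) (hm1 i (by omega))
      (hm2 i (by omega)) (hm1 i' h2) (hm2 i' h2) (hgood i (by omega)) hj
  have h1 := union_card p.Φ (ov p) (ov_nonneg p) U C hUC hUU p.Φ le_rfl
  have h2 : (((Finset.range p.Φ).biUnion U).card : ℝ) ≤ (n : ℝ) ^ 2 := by
    have e1 : (Finset.range p.Φ).biUnion U ⊆ Finset.range n ×ˢ Finset.range n := by
      intro c hc
      obtain ⟨i, hi, hc⟩ := Finset.mem_biUnion.1 hc
      obtain ⟨j, hj, hc⟩ := Finset.mem_biUnion.1 hc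
      have hi' := Finset.mem_range.1 hi
      have hjN : j < p.off B := lt_of_lt_of_le
        (Finset.mem_Ico.1 (Finset.mem_filter.1 hj).1).2 (p.off_mono (by omega))
      exact cells_sub (hF.x_le j hjN) (hF.y_le j hjN) hc
    have e2 := Finset.card_le_card e1
    rw [Finset.card_product, Finset.card_range] at e2
    calc (((Finset.range p.Φ).biUnion U).card : ℝ) ≤ ((n * n : ℕ) : ℝ) := by exact_mod_cast e2
      _ = (n : ℝ) ^ 2 := by push_cast; ring
  have hCnn : ∀ i ∈ Finset.range p.Φ, 0 ≤ C i := fun i _ => ar_nonneg S _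
  have h3 : ∑ i ∈ Finset.range p.Φ, C i ≤ 2 * (n : ℝ) ^ 2 := by
    have e1 := ov_le p
    have e2 := Finset.sum_nonneg hCnn
    nlinarith
  -- conclusion
  set W : ℝ := 2 * (n : ℝ) ^ 2 * p.lam with hWdef
  have hWpos : 0 < W := by positivity
  set y : ℝ := 1 / (p.Φ : ℝ) with hy
  have h4 : ∀ i ∈ Finset.range p.Φ, 2 * y * W - y ^ 2 * C i ≤
      W * (R p τ S (θ + i + 1) - R p τ S (θ + i)) := by
    intro i hi
    have hi' := Finset.mem_range.1 hi
    have e1 := hm3 i hi'
    have e2 := hCnn i hi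
    set d := R p τ S (θ + i + 1) - R p τ S (θ + i) with hd
    have e3 : W ≤ C i * d := e1
    have hd0 : 0 ≤ d := by
      have := R_mono p τ S (show θ + i ≤ θ + i + 1 by omega)
      linarith
    have hCpos : 0 < C i := by
      rcases e2.lt_or_eq with h | h
      · exact h
      · rw [← h, zero_mul] at e3
        linarith
    have e4 : (2 * y * W - y ^ 2 * C i) * C i ≤ (W * d) * C i := by
      nlinarith [sq_nonneg (W - y * C i), mul_le_mul_of_nonneg_left e3 hWpos.le]
    exact le_of_mul_le_mul_right e4 hCpos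
  have h5 := Finset.sum_le_sum h4
  rw [← Finset.mul_sum, sum_telescope (R p τ S) θ p.Φ, Finset.sum_sub_distrib, Finset.sum_const,
    Finset.card_range, nsmul_eq_mul, ← Finset.mul_sum] at h5
  have h6 : (p.Φ : ℝ) * (2 * y * W) = 2 * W := by
    rw [hy]
    field_simp
  have h7 : y ^ 2 * ∑ i ∈ Finset.range p.Φ, C i ≤ W := by
    calc y ^ 2 * ∑ i ∈ Finset.range p.Φ, C i ≤ y ^ 2 * (2 * (n : ℝ) ^ 2) := by gcongr
      _ = W := by
        rw [hWdef, hy]
        unfold Par.lam
        ring
  rw [h6] at h5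
  nlinarith

end Pool.Agent.Y649.Mesh
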